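import Mathlib

/-!
# Characteristic polynomials of graphs modulo two: exposing one vertex
-/

set_option autoImplicit false

namespace DS

open Matrix Finset

/-- The field with two elements. -/
abbrev F := ZMod 2

set_option linter.unusedSectionVars false

variable {W : Type*} [Fintype W] [DecidableEq W]

/-- Alternating matrices over `F`, the adjacency matrices modulo two. -/
def IsAlt (B : Matrix W W F) : Prop := Bᵀ = B ∧ ∀ w, B w w = 0

theorem F_add_self (x : F) : x + x = 0 := by revert x; decide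

theorem F_mul_self (x : F) : x * x = x := by revert x; decide

theorem IsAlt.add {A B : Matrix W W F} (hA : IsAlt A) (hB : IsAlt B) : IsAlt (A + B) :=
  ⟨by rw [transpose_add, hA.1, hB.1], fun w => by rw [Matrix.add_apply, hA.2, hB.2, add_zero]⟩

theorem alt_form {B : Matrix W W F} (hB : IsAlt B) (x : W → F) : x ⬝ᵥ (B *ᵥ x) = 0 := by
  have h1 : x ⬝ᵥ (B *ᵥ x) = ∑ p : W × W, x p.1 * (B p.1 p.2 * x p.2) := by
    rw [Fintype.sum_prod_type]
    simp only [dotProduct, mulVec, Finset.mul_sum]
  rw [h1]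
  refine Finset.sum_involution (fun p _ => p.swap) ?_ ?_ ?_ ?_
  · rintro ⟨u, v⟩ -
    have h2 : B v u = B u v := by
      conv_lhs => rw [← hB.1]
      rfl
    simp only [Prod.swap_prod_mk, h2]
    have : x v * (B u v * x u) = x u * (B u v * x v) := by ring
    rw [this, F_add_self]
  · rintro ⟨u, v⟩ - h3 h4
    simp only [Prod.swap_prod_mk, Prod.mk.injEq] at h4
    obtain ⟨rfl, -⟩ := h4
    exact h3 (by simp [hB.2])
  · intro p _
    exact Finset.mem_univ _
  · intro p _
    exact Prod.swap_swap p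

theorem symm_dot {B : Matrix W W F} (hB : Bᵀ = B) (x y : W → F) :
    x ⬝ᵥ (B *ᵥ y) = (B *ᵥ x) ⬝ᵥ y := by
  rw [dotProduct_mulVec, ← mulVec_transpose, hB]

theorem pow_symm {B : Matrix W W F} (hB : Bᵀ = B) (j : ℕ) : (B ^ j)ᵀ = B ^ j := by
  rw [transpose_pow, hB]

theorem form_odd {B : Matrix W W F} (hB : IsAlt B) (x : W → F) (j : ℕ) :
    x ⬝ᵥ (B ^ (2 * j + 1) *ᵥ x) = 0 := by
  have h : B ^ (2 * j + 1) = B ^ j * (B * B ^ j) := by
    rw [← pow_succ', ← pow_add]
    congr 1
    ring
  rw [h, ← mulVec_mulVec, ← mulVec_mulVec, symm_dot (pow_symm hB.1 j)]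
  exact alt_form hB _

theorem form_even {B : Matrix W W F} (hB : IsAlt B) (x : W → F) (j : ℕ) :
    x ⬝ᵥ (B ^ (2 * j) *ᵥ x) = 1 ⬝ᵥ (B ^ j *ᵥ x) := by
  have h : B ^ (2 * j) = B ^ j * B ^ j := by
    rw [← pow_add]
    congr 1
    ring
  rw [h, ← mulVec_mulVec, symm_dot (pow_symm hB.1 j)]
  simp only [dotProduct, F_mul_self, Pi.one_apply, one_mul]

/-- The reversed characteristic polynomial modulo two. -/
noncomputable def Er (M : Matrix W W F) : PowerSeries F :=
  det (1 + (PowerSeries.X : PowerSeries F) • M.map PowerSeries.C)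

/-- The resolvent. -/
noncomputable def Res (B : Matrix W W F) : Matrix W W (PowerSeries F) :=
  Matrix.of fun i j => PowerSeries.mk fun k => (B ^ k) i j

theorem mul_Res (B : Matrix W W F) :
    (1 + (PowerSeries.X : PowerSeries F) • B.map PowerSeries.C) * Res B = 1 := by
  ext i j k
  rw [add_mul, one_mul, Matrix.add_apply, map_add, smul_mul_assoc, Matrix.smul_apply,
    smul_eq_mul]
  have h1 : ∀ k, PowerSeries.coeff k (Res B i j) = (B ^ k) i j := by
    intro k
    simp [Res]
  have h2 : ∀ k, PowerSeries.coeff k ((B.map PowerSeries.C * Res B) i j) = (B ^ (k + 1)) i j := by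
    intro k
    rw [Matrix.mul_apply, map_sum, pow_succ', Matrix.mul_apply]
    refine Finset.sum_congr rfl fun l _ => ?_
    rw [Matrix.map_apply, PowerSeries.coeff_C_mul]
    simp [Res]
  cases k with
  | zero =>
    rw [h1, PowerSeries.coeff_zero_X_mul, add_zero, pow_zero]
    by_cases hij : i = j
    · subst hij; simp
    · simp [Matrix.one_apply_ne hij]
  | succ k =>
    rw [h1, PowerSeries.coeff_succ_X_mul, h2, F_add_self]
    by_cases hij : i = j
    · subst hij
      rw [Matrix.one_apply_eq, PowerSeries.coeff_one, if_neg (Nat.succ_ne_zero k)]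
    · rw [Matrix.one_apply_ne hij, map_zero]

/-- Adding one vertex with neighbourhood `ρ`. -/
def Ext (B : Matrix W W F) (ρ : W → F) : Matrix (W ⊕ Unit) (W ⊕ Unit) F :=
  fromBlocks B (replicateCol Unit ρ) (replicateRow Unit ρ) 0

/-- The linear part. -/
noncomputable def Gam (B : Matrix W W F) (ρ : W → F) : PowerSeries F :=
  PowerSeries.mk fun k => if Even k then 1 ⬝ᵥ (B ^ (k / 2) *ᵥ ρ) else 0

theorem coeff_Gam (B : Matrix W W F) (ρ : W → F) (k : ℕ) :
    PowerSeries.coeff k (Gam B ρ) = if Even k then 1 ⬝ᵥ (B ^ (k / 2) *ᵥ ρ) else 0 := by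
  simp [Gam]

theorem Gam_add (B : Matrix W W F) (ρ ρ' : W → F) : Gam B (ρ + ρ') = Gam B ρ + Gam B ρ' := by
  ext k
  rw [map_add, coeff_Gam, coeff_Gam, coeff_Gam]
  split_ifs
  · rw [mulVec_add, dotProduct_add]
  · simp

theorem quad_eq {B : Matrix W W F} (hB : IsAlt B) (ρ : W → F) :
    ∑ u, ∑ v, PowerSeries.C (ρ u) * (Res B u v * PowerSeries.C (ρ v)) = Gam B ρ := by
  ext k
  have h1 : PowerSeries.coeff k
      (∑ u, ∑ v, PowerSeries.C (ρ u) * (Res B u v * PowerSeries.C (ρ v))) =
      ρ ⬝ᵥ (B ^ k *ᵥ ρ) := by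
    rw [map_sum]
    simp only [dotProduct, mulVec, Finset.mul_sum]
    refine Finset.sum_congr rfl fun u _ => ?_
    rw [map_sum]
    refine Finset.sum_congr rfl fun v _ => ?_
    rw [PowerSeries.coeff_C_mul, PowerSeries.coeff_mul_C]
    simp [Res]
  rw [h1, coeff_Gam]
  rcases Nat.even_or_odd' k with ⟨j, rfl | rfl⟩
  · rw [form_even hB, if_pos (even_two_mul j)]
    congr 3
    omega
  · rw [form_odd hB, if_neg]
    rw [Nat.not_even_iff_odd]
    exact odd_two_mul_add_one j

/-- Exposing one vertex. -/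
theorem Er_Ext {B : Matrix W W F} (hB : IsAlt B) (ρ : W → F) :
    Er (Ext B ρ) = Er B * (1 + PowerSeries.X ^ 2 * Gam B ρ) := by
  have hinv : Res B * (1 + (PowerSeries.X : PowerSeries F) • B.map PowerSeries.C) = 1 :=
    mul_eq_one_comm.1 (mul_Res B)
  let _ : Invertible (1 + (PowerSeries.X : PowerSeries F) • B.map PowerSeries.C) :=
    ⟨Res B, hinv, mul_Res B⟩
  have h1 : (1 + (PowerSeries.X : PowerSeries F) • (Ext B ρ).map PowerSeries.C) =
      fromBlocks (1 + (PowerSeries.X : PowerSeries F) • B.map PowerSeries.C)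
        ((PowerSeries.X : PowerSeries F) • (replicateCol Unit ρ).map PowerSeries.C)
        ((PowerSeries.X : PowerSeries F) • (replicateRow Unit ρ).map PowerSeries.C) 1 := by
    rw [Ext, fromBlocks_map, fromBlocks_smul, ← fromBlocks_one, fromBlocks_add]
    congr 1
    · simp
    · simp
    · ext i j k
      simp
  rw [Er, h1, det_fromBlocks₁₁]
  congr 1
  rw [det_unique]
  have h2 : ⅟(1 + (PowerSeries.X : PowerSeries F) • B.map PowerSeries.C) = Res B := rfl
  rw [h2, Matrix.sub_apply, Matrix.one_apply_eq, Matrix.smul_mul, Matrix.smul_mul,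
    Matrix.mul_smul, Matrix.smul_apply, Matrix.smul_apply, smul_eq_mul, smul_eq_mul,
    ← quad_eq hB]
  have h3 : ((replicateRow Unit ρ).map PowerSeries.C * Res B * (replicateCol Unit ρ).map
      PowerSeries.C) default default =
      ∑ u, ∑ v, PowerSeries.C (ρ u) * (Res B u v * PowerSeries.C (ρ v)) := by
    rw [Matrix.mul_assoc, Matrix.mul_apply]
    refine Finset.sum_congr rfl fun u _ => ?_
    rw [Matrix.mul_apply, Finset.mul_sum]
    refine Finset.sum_congr rfl fun v _ => ?_
    simp [replicateRow_apply, replicateCol_apply]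
  rw [h3]
  have h4 : ∀ y : PowerSeries F, 1 - y = 1 + y := by
    intro y
    have : y + y = 0 := by
      ext k
      rw [map_add, F_add_self, map_zero]
    rw [sub_eq_iff_eq_add, add_assoc, this, add_zero]
  rw [h4]
  ring

end DS
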