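import Pool.Agent.helper62.DS.Cnt

/-!
# The bound for one difference matrix
-/

set_option autoImplicit false
set_option linter.unusedSectionVars false

namespace DS

open Matrix Finset

variable {W : Type*} [Fintype W] [DecidableEq W]

open scoped Classical in
/-- Exceptional matrices of a given level. -/
noncomputable def BdL (D : Matrix W W F) (m : ℕ) : Finset (Matrix W W F) :=
  (altSet W).filter fun B => ff B m ∉ PP B D m ∧ ff B (m + 1) ∈ PP B D (m + 1)

open scoped Classical in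
/-- All exceptional matrices. -/
noncomputable def Bd (D : Matrix W W F) (J : ℕ) : Finset (Matrix W W F) :=
  (altSet W).filter fun B => ∃ l, 1 ≤ l ∧ l < J ∧ ff B l ∈ PP B D l

theorem mem_BdL (D : Matrix W W F) (m : ℕ) (B : Matrix W W F) : B ∈ BdL D m ↔
    IsAlt B ∧ ff B m ∉ PP B D m ∧ ff B (m + 1) ∈ PP B D (m + 1) := by
  simp [BdL, mem_altSet]

theorem mem_Bd (D : Matrix W W F) (J : ℕ) (B : Matrix W W F) : B ∈ Bd D J ↔
    IsAlt B ∧ ∃ l, 1 ≤ l ∧ l < J ∧ ff B l ∈ PP B D l := by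
  simp [Bd, mem_altSet]

theorem F_cases (x : F) : x = 0 ∨ x = 1 := by revert x; decide

theorem card_BdL (D : Matrix W W F) (ha0 : D *ᵥ 1 ≠ 0) (ha1 : D *ᵥ 1 ≠ 1) (m : ℕ) :
    (BdL D m).card * 2 ^ Fintype.card W ≤ 2 ^ (4 * m + 3) * (altSet W).card := by
  have hS : ∀ B ∈ BdL D m, IsAlt B ∧ ff B m ∉ PP B D m := by
    intro B hB
    rw [mem_BdL] at hB
    exact ⟨hB.1, hB.2.1⟩
  rcases Nat.eq_zero_or_pos m with rfl | hm
  · refine card_bad_aux D 0 _ hS (fun _ c => c (Sum.inl 0) • 1) ?_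
    intro B hB
    rw [mem_BdL] at hB
    obtain ⟨-, -, h⟩ := hB
    rw [PP, Submodule.mem_span_range_iff_exists_fun] at h
    obtain ⟨c, hc⟩ := h
    refine ⟨c, fun E _ => ?_⟩
    rw [Fintype.sum_sum_type] at hc
    have e1 : ∑ x : Fin (0 + 1), c (Sum.inl x) • gen B D (0 + 1) (Sum.inl x) =
        c (Sum.inl 0) • (1 : W → F) := by
      rw [Fin.sum_univ_one]
      congr 1
      exact ff_zero B
    have e2 : ∑ x : Fin (0 + 1), c (Sum.inr x) • gen B D (0 + 1) (Sum.inr x) =
        c (Sum.inr 0) • (ff B (0 + 1) + D *ᵥ 1) := by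
      rw [Fin.sum_univ_one]
      congr 1
      change ff (B + D) (0 + 1) = _
      rw [ff_succ, ff_succ, ff_zero, ff_zero, add_mulVec]
    rw [e1, e2] at hc
    rcases F_cases (c (Sum.inr 0)) with h0 | h0
    · rw [h0, zero_smul, add_zero] at hc
      exact hc
    · exfalso
      rw [h0, one_smul] at hc
      have h1 : c (Sum.inl 0) • (1 : W → F) + D *ᵥ 1 = 0 := by
        generalize ff B (0 + 1) = u at hc
        generalize c (Sum.inl 0) • (1 : W → F) = v at hc
        have h2 : (v + D *ᵥ 1) + u = 0 + u := by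
          rw [zero_add, add_assoc, add_comm (D *ᵥ 1) u]
          exact hc
        exact add_right_cancel h2
      have h3 : D *ᵥ 1 = c (Sum.inl 0) • (1 : W → F) := by
        ext w
        have h4 := congrFun h1 w
        rw [Pi.add_apply, Pi.zero_apply] at h4
        have h5 : ∀ x y : F, x + y = 0 → y = x := by decide
        exact h5 _ _ h4
      rcases F_cases (c (Sum.inl 0)) with h4 | h4
      · rw [h4, zero_smul] at h3
        exact ha0 h3
      · rw [h4, one_smul] at h3
        exact ha1 h3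
  · refine card_bad_aux D m _ hS (fun B c => ∑ i, c i • gen B D (m + 1) i) ?_
    intro B hB
    rw [mem_BdL] at hB
    obtain ⟨-, -, h⟩ := hB
    rw [PP, Submodule.mem_span_range_iff_exists_fun] at h
    obtain ⟨c, hc⟩ := h
    refine ⟨c, fun E hE => ?_⟩
    rw [gen_stab hm hE]
    exact hc

theorem Bd_subset [Nonempty W] (D : Matrix W W F) (J : ℕ) :
    Bd D J ⊆ (range J).biUnion fun m => BdL D m := by
  classical
  intro B hB
  rw [mem_Bd] at hB
  obtain ⟨hA, hex⟩ := hB
  have hex' : ∃ l, 1 ≤ l ∧ ff B l ∈ PP B D l := by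
    obtain ⟨l, h1, -, h2⟩ := hex
    exact ⟨l, h1, h2⟩
  obtain ⟨l₀, h1, h2, h3⟩ := hex
  have hs := Nat.find_spec hex'
  have hmin : Nat.find hex' ≤ l₀ := Nat.find_min' hex' ⟨h1, h3⟩
  set l := Nat.find hex' with hl
  rw [mem_biUnion]
  refine ⟨l - 1, mem_range.2 (by omega), ?_⟩
  rw [mem_BdL]
  have e : l - 1 + 1 = l := by omega
  rw [e]
  refine ⟨hA, ?_, hs.2⟩
  rcases Nat.lt_or_ge 1 l with h4 | h4
  · intro h5
    exact Nat.find_min hex' (m := l - 1) (by omega) ⟨by omega, h5⟩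
  · have e2 : l - 1 = 0 := by omega
    rw [e2, ff_zero]
    intro h5
    have h6 : PP B D 0 = ⊥ := by
      rw [PP, Submodule.span_eq_bot]
      rintro _ ⟨i | i, rfl⟩
      · exact i.elim0
      · exact i.elim0
    rw [h6, Submodule.mem_bot] at h5
    have h7 := congrFun h5 (Classical.arbitrary W)
    rw [Pi.one_apply, Pi.zero_apply] at h7
    exact one_ne_zero h7

theorem card_Bd (D : Matrix W W F) (ha0 : D *ᵥ 1 ≠ 0) (ha1 : D *ᵥ 1 ≠ 1) (J : ℕ) :
    (Bd D J).card * 2 ^ Fintype.card W ≤ 2 ^ (4 * J) * (altSet W).card := by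
  have hW : Nonempty W := by
    by_contra h
    rw [not_nonempty_iff] at h
    exact ha0 (Subsingleton.elim _ _)
  have h1 : (Bd D J).card ≤ ∑ m ∈ range J, (BdL D m).card :=
    (Finset.card_le_card (Bd_subset D J)).trans Finset.card_biUnion_le
  have h2 : ∀ J : ℕ, ∑ m ∈ range J, 2 ^ (4 * m + 3) ≤ 2 ^ (4 * J) := by
    intro J
    induction J with
    | zero => simp
    | succ J ih =>
      rw [Finset.sum_range_succ]
      have e : 2 ^ (4 * (J + 1)) = 16 * 2 ^ (4 * J) := by ring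
      have e' : 2 ^ (4 * J + 3) = 8 * 2 ^ (4 * J) := by ring
      rw [e, e']
      omega
  calc (Bd D J).card * 2 ^ Fintype.card W
      ≤ (∑ m ∈ range J, (BdL D m).card) * 2 ^ Fintype.card W := Nat.mul_le_mul_right _ h1
    _ = ∑ m ∈ range J, (BdL D m).card * 2 ^ Fintype.card W := by rw [Finset.sum_mul]
    _ ≤ ∑ m ∈ range J, 2 ^ (4 * m + 3) * (altSet W).card :=
        Finset.sum_le_sum fun m _ => card_BdL D ha0 ha1 m
    _ = (∑ m ∈ range J, 2 ^ (4 * m + 3)) * (altSet W).card := by rw [Finset.sum_mul]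
    _ ≤ _ := Nat.mul_le_mul_right _ (h2 J)

theorem good_hh {B D : Matrix W W F} {J : ℕ} (hA : IsAlt B) (hB : B ∉ Bd D J) :
    (OS (hh B D) J).card * 2 ^ (J - 1) ≤ 2 ^ Fintype.card W := by
  have hg : ∀ l, 1 ≤ l → l < J → ff B l ∉ PP B D l := by
    intro l h1 h2 h3
    exact hB ((mem_Bd D J B).2 ⟨hA, l, h1, h2, h3⟩)
  have hsub : ∀ l l', 1 ≤ l → l' ≤ l → hh B D l' - ff B l' ∈ PP B D l := by
    intro l l' hl hl'
    refine (Submodule.span_le.2 ?_) (hh_sub_mem B D l')
    rintro _ ⟨j, rfl⟩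
    have := j.2
    exact gg_mem B D hl (by omega)
  refine card_orth_le (hh B D) (PP B D) J ?_ ?_
  · intro l h1 h2 h3
    refine hg l h1 h2 ?_
    have := Submodule.sub_mem _ h3 (hsub l l h1 le_rfl)
    rwa [sub_sub_cancel] at this
  · intro l l' _ h2 _
    have h3 := Submodule.add_mem _ (hsub l l' (by omega) h2.le) (ff_mem B D h2)
    rwa [sub_add_cancel] at h3

open scoped Classical in
/-- Neighbourhoods of the exposed vertex which do not separate. -/
noncomputable def NS (B D : Matrix W W F) (δ : W → F) : Finset (W → F) :=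
  univ.filter fun ρ => Er (Ext B ρ) = Er (Ext (B + D) (ρ + δ))

theorem mem_NS (B D : Matrix W W F) (δ ρ : W → F) :
    ρ ∈ NS B D δ ↔ Er (Ext B ρ) = Er (Ext (B + D) (ρ + δ)) := by
  simp [NS]

theorem card_NS_le {B D : Matrix W W F} (hB : IsAlt B) (hD : IsAlt D) (δ : W → F) (J : ℕ) :
    (NS B D δ).card ≤ (OS (hh B D) J).card := by
  rcases (NS B D δ).eq_empty_or_nonempty with h | ⟨ρ₁, h₁⟩
  · rw [h, card_empty]
    exact Nat.zero_le _
  · rw [mem_NS] at h₁
    refine Finset.card_le_card_of_injOn (fun ρ => ρ + ρ₁) ?_ ?_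
    · intro ρ hρ
      rw [mem_coe, mem_NS] at hρ
      rw [mem_coe, mem_OS]
      intro l _ _
      exact hh_dot hB hD hρ h₁ l
    · intro ρ _ ρ' _ he
      exact add_left_injective ρ₁ he

theorem card_pairs (D : Matrix W W F) (hD : IsAlt D) (ha0 : D *ᵥ 1 ≠ 0) (ha1 : D *ᵥ 1 ≠ 1)
    (δ : W → F) (J : ℕ) (hJ : 5 * J ≤ Fintype.card W) :
    (∑ B ∈ altSet W, (NS B D δ).card) * 2 ^ J ≤ 3 * ((altSet W).card * 2 ^ Fintype.card W) := by
  classical
  have hle : ∀ B, (NS B D δ).card ≤ 2 ^ Fintype.card W := by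
    intro B
    rw [← card_fun]
    exact Finset.card_le_univ _
  have hsplit : ∑ B ∈ altSet W, (NS B D δ).card * 2 ^ J ≤
      ∑ B ∈ altSet W, ((if B ∈ Bd D J then 2 ^ Fintype.card W * 2 ^ J else 0) +
        2 * 2 ^ Fintype.card W) := by
    refine Finset.sum_le_sum fun B hB => ?_
    rw [mem_altSet] at hB
    split_ifs with h
    · exact (Nat.mul_le_mul_right _ (hle B)).trans (Nat.le_add_right _ _)
    · rw [zero_add]
      have h1 := good_hh hB h
      have h2 := card_NS_le hB hD δ J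
      rcases Nat.eq_zero_or_pos J with rfl | hJ'
      · rw [pow_zero, mul_one]
        have := hle B
        omega
      · have e : 2 ^ J = 2 * 2 ^ (J - 1) := by
          rw [← pow_succ']
          congr 1
          omega
        rw [e]
        calc (NS B D δ).card * (2 * 2 ^ (J - 1)) = 2 * ((NS B D δ).card * 2 ^ (J - 1)) := by ring
          _ ≤ 2 * ((OS (hh B D) J).card * 2 ^ (J - 1)) :=
              Nat.mul_le_mul_left _ (Nat.mul_le_mul_right _ h2)
          _ ≤ _ := Nat.mul_le_mul_left _ h1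
  rw [Finset.sum_mul]
  refine hsplit.trans ?_
  rw [Finset.sum_add_distrib, ← Finset.sum_filter, Finset.sum_const, Finset.sum_const,
    smul_eq_mul, smul_eq_mul]
  have h3 : ((altSet W).filter fun B => B ∈ Bd D J).card ≤ (Bd D J).card := by
    refine Finset.card_le_card fun B hB => ?_
    rw [mem_filter] at hB
    exact hB.2
  have h4 := card_Bd D ha0 ha1 J
  have h5 : 2 ^ (4 * J) * 2 ^ J ≤ 2 ^ Fintype.card W := by
    rw [← pow_add]
    exact Nat.pow_le_pow_right (by norm_num) (by omega)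
  have h6 : ((altSet W).filter fun B => B ∈ Bd D J).card * (2 ^ Fintype.card W * 2 ^ J) ≤
      (altSet W).card * 2 ^ Fintype.card W := by
    calc ((altSet W).filter fun B => B ∈ Bd D J).card * (2 ^ Fintype.card W * 2 ^ J)
        ≤ (Bd D J).card * (2 ^ Fintype.card W * 2 ^ J) := Nat.mul_le_mul_right _ h3
      _ = ((Bd D J).card * 2 ^ Fintype.card W) * 2 ^ J := by ring
      _ ≤ (2 ^ (4 * J) * (altSet W).card) * 2 ^ J := Nat.mul_le_mul_right _ h4
      _ = (altSet W).card * (2 ^ (4 * J) * 2 ^ J) := by ring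
      _ ≤ _ := Nat.mul_le_mul_left _ h5
  calc _ ≤ (altSet W).card * 2 ^ Fintype.card W + (altSet W).card * (2 * 2 ^ Fintype.card W) :=
        Nat.add_le_add_right h6 _
    _ = _ := by ring

end DS
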