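import Pool.Agent.helper62.DS.Lin

/-!
# Counting the exceptional matrices
-/

set_option autoImplicit false
set_option linter.unusedSectionVars false

namespace DS

open Matrix Finset

open scoped Classical in
/-- All alternating matrices. -/
noncomputable def altSet (W : Type*) [Fintype W] : Finset (Matrix W W F) :=
  univ.filter fun B => IsAlt B

variable {W : Type*} [Fintype W] [DecidableEq W]

theorem mem_altSet (B : Matrix W W F) : B ∈ altSet W ↔ IsAlt B := by
  simp [altSet]

theorem exists_dual (P : Submodule F (W → F)) (v : W → F) (hv : v ∉ P) :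
    ∃ φ : W → F, (∀ p ∈ P, φ ⬝ᵥ p = 0) ∧ φ ⬝ᵥ v = 1 := by
  obtain ⟨f, hf, hP⟩ := Submodule.exists_dual_map_eq_bot_of_notMem hv inferInstance
  have key : ∀ x : W → F, f x = (fun w => f (Pi.single w 1)) ⬝ᵥ x := by
    intro x
    rw [LinearMap.pi_apply_eq_sum_univ f x, dotProduct]
    refine Finset.sum_congr rfl fun w _ => ?_
    rw [smul_eq_mul, mul_comm]
    congr 2
    ext j
    rw [Pi.single_apply]
    simp only [eq_comm]
  refine ⟨fun w => f (Pi.single w 1), fun p hp => ?_, ?_⟩
  · rw [← key]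
    have : f p ∈ P.map f := Submodule.mem_map_of_mem hp
    rw [hP, Submodule.mem_bot] at this
    exact this
  · rw [← key]
    have h2 : ∀ x : F, x ≠ 0 → x = 1 := by decide
    exact h2 _ hf

theorem card_fun : Fintype.card (W → F) = 2 ^ Fintype.card W := by
  rw [Fintype.card_fun]
  rfl

open scoped Classical in
/-- The vectors orthogonal to `h 1, …, h (J - 1)`. -/
noncomputable def OS (h : ℕ → W → F) (J : ℕ) : Finset (W → F) :=
  univ.filter fun r => ∀ l, 1 ≤ l → l < J → r ⬝ᵥ h l = 0

theorem mem_OS (h : ℕ → W → F) (J : ℕ) (r : W → F) :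
    r ∈ OS h J ↔ ∀ l, 1 ≤ l → l < J → r ⬝ᵥ h l = 0 := by
  simp [OS]

theorem card_orth_le (h : ℕ → W → F) (P : ℕ → Submodule F (W → F)) (J : ℕ)
    (h1 : ∀ l, 1 ≤ l → l < J → h l ∉ P l)
    (h2 : ∀ l l', 1 ≤ l' → l' < l → l < J → h l' ∈ P l) :
    (OS h J).card * 2 ^ (J - 1) ≤
      2 ^ Fintype.card W := by
  induction J with
  | zero =>
    rw [Nat.zero_sub, pow_zero, mul_one, ← card_fun]
    exact Finset.card_le_univ _
  | succ J ih =>
    rcases Nat.eq_zero_or_pos J with rfl | hJ
    · rw [Nat.add_sub_cancel, pow_zero, mul_one, ← card_fun]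
      exact Finset.card_le_univ _
    · have ih' := ih (fun l a b => h1 l a (by omega)) (fun l l' a b c => h2 l l' a b (by omega))
      obtain ⟨φ, hφ1, hφ2⟩ := exists_dual (P J) (h J) (h1 J hJ (by omega))
      set S := OS h J with hS
      set T := OS h (J + 1) with hT
      have e1 : 2 * T.card ≤ S.card := by
        have hd : Disjoint T (T.image fun r => r + φ) := by
          rw [Finset.disjoint_left]
          intro r hr hr'
          rw [mem_image] at hr'
          obtain ⟨r', hr', rfl⟩ := hr'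
          rw [hT, mem_OS] at hr hr'
          have a1 := hr J hJ (by omega)
          have a2 := hr' J hJ (by omega)
          rw [add_dotProduct, a2, hφ2, zero_add] at a1
          exact one_ne_zero a1
        have hc : (T.image fun r => r + φ).card = T.card :=
          Finset.card_image_of_injective _ (add_left_injective φ)
        have hsub : T ∪ (T.image fun r => r + φ) ⊆ S := by
          intro r hr
          rw [mem_union, mem_image] at hr
          rw [hS, mem_OS]
          intro l hl1 hl2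
          rcases hr with hr | ⟨r', hr', rfl⟩
          · rw [hT, mem_OS] at hr
            exact hr l hl1 (by omega)
          · rw [hT, mem_OS] at hr'
            rw [add_dotProduct, hr' l hl1 (by omega), zero_add]
            exact hφ1 _ (h2 J l hl1 hl2 (by omega))
        have := Finset.card_le_card hsub
        rw [Finset.card_union_of_disjoint hd, hc] at this
        omega
      have e2 : 2 ^ (J + 1 - 1) = 2 * 2 ^ (J - 1) := by
        rw [← pow_succ']
        congr 1
        omega
      rw [e2]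
      calc T.card * (2 * 2 ^ (J - 1)) = (2 * T.card) * 2 ^ (J - 1) := by ring
        _ ≤ S.card * 2 ^ (J - 1) := Nat.mul_le_mul_right _ e1
        _ ≤ _ := ih'

theorem card_ker_ge {ι : Type*} [Fintype ι] (v : ι → W → F) :
    2 ^ Fintype.card W ≤
      (univ.filter fun z : W → F => ∀ i, z ⬝ᵥ v i = 0).card * 2 ^ Fintype.card ι := by
  classical
  have h := Finset.card_le_mul_card_image (f := fun (z : W → F) (i : ι) => z ⬝ᵥ v i)
    (univ : Finset (W → F)) (univ.filter fun z : W → F => ∀ i, z ⬝ᵥ v i = 0).card ?_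
  · rw [Finset.card_univ, card_fun] at h
    refine h.trans (Nat.mul_le_mul_left _ ?_)
    rw [← card_fun]
    exact Finset.card_le_univ _
  · intro a ha
    rw [mem_image] at ha
    obtain ⟨z₀, -, rfl⟩ := ha
    refine Finset.card_le_card_of_injOn (fun z => z + z₀) ?_ ?_
    · intro z hz
      simp only [coe_filter, Set.mem_ofPred_eq, mem_univ, true_and] at hz ⊢
      intro i
      rw [add_dotProduct, congrFun hz i, F_add_self]
    · intro z _ z' _ he
      exact add_left_injective z₀ he

/-- The labels. -/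
def gen (B D : Matrix W W F) (l : ℕ) : Fin l ⊕ Fin l → (W → F)
  | Sum.inl i => ff B i
  | Sum.inr i => ff (B + D) (i + 1)

/-- The space spanned by the labels. -/
def PP (B D : Matrix W W F) (l : ℕ) : Submodule F (W → F) :=
  Submodule.span F (Set.range (gen B D l))

theorem gen_mem (B D : Matrix W W F) (l : ℕ) (i : Fin l ⊕ Fin l) : gen B D l i ∈ PP B D l :=
  Submodule.subset_span ⟨i, rfl⟩

theorem ff_mem (B D : Matrix W W F) {l i : ℕ} (hi : i < l) : ff B i ∈ PP B D l :=
  gen_mem B D l (Sum.inl ⟨i, hi⟩)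

theorem gg_mem (B D : Matrix W W F) {l i : ℕ} (hl : 1 ≤ l) (hi : i ≤ l) :
    ff (B + D) i ∈ PP B D l := by
  rcases Nat.eq_zero_or_pos i with rfl | hi'
  · rw [ff_zero, ← ff_zero B]
    exact ff_mem B D (by omega)
  · have := gen_mem B D l (Sum.inr ⟨i - 1, by omega⟩)
    have e : i - 1 + 1 = i := by omega
    simpa [gen, e] using this

theorem PP_mono (B D : Matrix W W F) {l l' : ℕ} (h : l ≤ l') : PP B D l ≤ PP B D l' := by
  rw [PP, Submodule.span_le]
  rintro _ ⟨i | i, rfl⟩
  · exact ff_mem B D (by omega)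
  · have := i.2
    exact gg_mem B D (by omega) (by omega)

/-- Update of a matrix. -/
def EE (z φ : W → F) : Matrix W W F := vecMulVec z φ + vecMulVec φ z

theorem EE_alt (z φ : W → F) : IsAlt (EE z φ) := by
  constructor
  · ext i j
    simp only [EE, transpose_apply, Matrix.add_apply, vecMulVec_apply]
    ring
  · intro w
    simp only [EE, Matrix.add_apply, vecMulVec_apply]
    rw [mul_comm (φ w), F_add_self]

theorem EE_mulVec (z φ v : W → F) : EE z φ *ᵥ v = (φ ⬝ᵥ v) • z + (z ⬝ᵥ v) • φ := by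
  ext w
  simp only [EE, mulVec, dotProduct, Matrix.add_apply, vecMulVec_apply, Pi.add_apply,
    Pi.smul_apply, smul_eq_mul, add_mul, Finset.sum_add_distrib, Finset.sum_mul]
  congr 1 <;> refine Finset.sum_congr rfl fun x _ => ?_ <;> ring

theorem ff_stab1 {B D E : Matrix W W F} {m : ℕ} (hE : ∀ p ∈ PP B D m, E *ᵥ p = 0) :
    ∀ i, i ≤ m → ff (B + E) i = ff B i := by
  intro i
  induction i with
  | zero => intro _; rw [ff_zero, ff_zero]
  | succ i ih =>
    intro hi
    rw [ff_succ, ih (by omega), add_mulVec, hE _ (ff_mem B D (by omega)), add_zero, ← ff_succ]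

theorem ff_stab2 {B D E : Matrix W W F} {m : ℕ} (hm : 1 ≤ m)
    (hE : ∀ p ∈ PP B D m, E *ᵥ p = 0) :
    ∀ i, i ≤ m + 1 → ff (B + E + D) i = ff (B + D) i := by
  intro i
  induction i with
  | zero => intro _; rw [ff_zero, ff_zero]
  | succ i ih =>
    intro hi
    rw [ff_succ, ih (by omega), add_right_comm, add_mulVec,
      hE _ (gg_mem B D hm (by omega)), add_zero, ← ff_succ]

theorem gen_stab {B D E : Matrix W W F} {m : ℕ} (hm : 1 ≤ m)
    (hE : ∀ p ∈ PP B D m, E *ᵥ p = 0) : gen (B + E) D (m + 1) = gen B D (m + 1) := by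
  funext i
  rcases i with i | i
  · exact ff_stab1 hE i (by omega)
  · exact ff_stab2 hm hE (i + 1) (by omega)

theorem PP_stab {B D E : Matrix W W F} {m : ℕ}
    (hE : ∀ p ∈ PP B D m, E *ᵥ p = 0) : PP (B + E) D m = PP B D m := by
  rw [PP, PP]
  congr 2
  funext i
  rcases i with i | i
  · exact ff_stab1 hE i (by omega)
  · have := i.2
    exact ff_stab2 (by omega) hE (i + 1) (by omega)

open scoped Classical in
/-- A chosen dual vector. -/
noncomputable def Phi (P : Submodule F (W → F)) (v : W → F) : W → F :=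
  if hv : v ∉ P then (exists_dual P v hv).choose else 0

theorem Phi_orth {P : Submodule F (W → F)} {v : W → F} (hv : v ∉ P) {p : W → F} (hp : p ∈ P) :
    Phi P v ⬝ᵥ p = 0 := by
  rw [Phi, dif_pos hv]
  exact (exists_dual P v hv).choose_spec.1 p hp

theorem Phi_one {P : Submodule F (W → F)} {v : W → F} (hv : v ∉ P) :
    Phi P v ⬝ᵥ v = 1 := by
  rw [Phi, dif_pos hv]
  exact (exists_dual P v hv).choose_spec.2

/-- The tests for the update vector. -/
def tst (B D : Matrix W W F) (m : ℕ) : Option (Fin m ⊕ Fin m) → (W → F)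
  | none => ff B m
  | some i => gen B D m i

theorem tst_orth {B D : Matrix W W F} {m : ℕ} {z : W → F} (hz : ∀ i, z ⬝ᵥ tst B D m i = 0) :
    ∀ p ∈ PP B D m, z ⬝ᵥ p = 0 := by
  intro p hp
  refine Submodule.span_induction (p := fun p _ => z ⬝ᵥ p = 0) ?_ ?_ ?_ ?_ hp
  · rintro _ ⟨i, rfl⟩
    exact hz (some i)
  · exact dotProduct_zero z
  · intro x y _ _ hx hy
    rw [dotProduct_add, hx, hy, add_zero]
  · intro a x _ hx
    rw [dotProduct_smul, hx, smul_zero]

theorem upd_zero {B D : Matrix W W F} {m : ℕ} (hB : ff B m ∉ PP B D m) {z : W → F}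
    (hz : ∀ i, z ⬝ᵥ tst B D m i = 0) :
    ∀ p ∈ PP B D m, EE z (Phi (PP B D m) (ff B m)) *ᵥ p = 0 := by
  intro p hp
  rw [EE_mulVec, Phi_orth hB hp, tst_orth hz p hp, zero_smul, zero_smul, add_zero]

theorem upd_ff {B D : Matrix W W F} {m : ℕ} (hB : ff B m ∉ PP B D m) {z : W → F}
    (hz : ∀ i, z ⬝ᵥ tst B D m i = 0) :
    ff (B + EE z (Phi (PP B D m) (ff B m))) (m + 1) = ff B (m + 1) + z := by
  have h1 : z ⬝ᵥ ff B m = 0 := hz none
  rw [ff_succ, ff_stab1 (upd_zero hB hz) m le_rfl, add_mulVec, EE_mulVec, Phi_one hB, h1,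
    one_smul, zero_smul, add_zero, ← ff_succ]

theorem card_bad_aux (D : Matrix W W F) (m : ℕ) (S : Finset (Matrix W W F))
    (hS : ∀ B ∈ S, IsAlt B ∧ ff B m ∉ PP B D m)
    (rc : Matrix W W F → (Fin (m + 1) ⊕ Fin (m + 1) → F) → (W → F))
    (hrc : ∀ B ∈ S, ∃ c, ∀ E : Matrix W W F, (∀ p ∈ PP B D m, E *ᵥ p = 0) →
      rc (B + E) c = ff B (m + 1)) :
    S.card * 2 ^ Fintype.card W ≤ 2 ^ (4 * m + 3) * (altSet W).card := by
  classical
  choose! c hc using hrc
  have h1 : (S.sigma fun B => univ.filter fun z : W → F => ∀ i, z ⬝ᵥ tst B D m i = 0).card ≤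
      ((altSet W) ×ˢ (univ : Finset (Fin (m + 1) ⊕ Fin (m + 1) → F))).card := by
    refine Finset.card_le_card_of_injOn
      (fun x => (x.1 + EE x.2 (Phi (PP x.1 D m) (ff x.1 m)), c x.1)) ?_ ?_
    · rintro ⟨B, z⟩ hx
      simp only [coe_sigma, Set.mem_sigma_iff, mem_coe, coe_filter, mem_univ, true_and,
        Set.mem_ofPred_eq] at hx
      simp only [coe_product, Set.mem_prod, mem_coe, mem_univ, and_true]
      rw [mem_altSet]
      exact (hS B hx.1).1.add (EE_alt _ _)
    · rintro ⟨B, z⟩ hx ⟨B', z'⟩ hx' he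
      simp only [coe_sigma, Set.mem_sigma_iff, mem_coe, coe_filter, mem_univ, true_and,
        Set.mem_ofPred_eq] at hx hx'
      simp only [Prod.mk.injEq] at he
      obtain ⟨he1, he2⟩ := he
      have a1 := (hS B hx.1).2
      have a2 := (hS B' hx'.1).2
      have b1 := hc B hx.1 _ (upd_zero a1 hx.2)
      have b2 := hc B' hx'.1 _ (upd_zero a2 hx'.2)
      have c1 := upd_ff a1 hx.2
      have c2 := upd_ff a2 hx'.2
      have d1 : ff B (m + 1) = ff B' (m + 1) := by
        rw [← b1, ← b2, he1, he2]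
      have d2 : z = z' := by
        rw [he1, c2, d1] at c1
        exact (add_left_cancel c1).symm
      have d3 : PP B D m = PP B' D m := by
        rw [← PP_stab (upd_zero a1 hx.2), ← PP_stab (upd_zero a2 hx'.2), he1]
      have d4 : ff B m = ff B' m := by
        rw [← ff_stab1 (upd_zero a1 hx.2) m le_rfl, ← ff_stab1 (upd_zero a2 hx'.2) m le_rfl, he1]
      have d5 : B = B' := by
        rw [d2, d3, d4] at he1
        exact add_right_cancel he1
      subst d5 d2
      rfl
  have h2 : S.card * 2 ^ Fintype.card W ≤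
      (S.sigma fun B => univ.filter fun z : W → F => ∀ i, z ⬝ᵥ tst B D m i = 0).card *
        2 ^ (2 * m + 1) := by
    rw [Finset.card_sigma, Finset.sum_mul, Finset.card_eq_sum_ones, Finset.sum_mul]
    refine Finset.sum_le_sum fun B _ => ?_
    rw [one_mul]
    have := card_ker_ge (tst B D m)
    have e : Fintype.card (Option (Fin m ⊕ Fin m)) = 2 * m + 1 := by
      rw [Fintype.card_option, Fintype.card_sum, Fintype.card_fin]
      ring
    rw [e] at this
    exact this
  have h3 : ((altSet W) ×ˢ (univ : Finset (Fin (m + 1) ⊕ Fin (m + 1) → F))).card =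
      (altSet W).card * 2 ^ (2 * m + 2) := by
    rw [Finset.card_product, Finset.card_univ, card_fun, Fintype.card_sum, Fintype.card_fin]
    congr 2
    ring
  calc S.card * 2 ^ Fintype.card W ≤ _ := h2
    _ ≤ ((altSet W).card * 2 ^ (2 * m + 2)) * 2 ^ (2 * m + 1) := by
        rw [← h3]
        exact Nat.mul_le_mul_right _ h1
    _ = 2 ^ (4 * m + 3) * (altSet W).card := by ring

end DS
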