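import Pool.Agent.helper62.DS.Gr

/-!
# Counting the difference graphs
-/

set_option autoImplicit false
set_option linter.unusedSectionVars false

namespace DS

open Matrix Finset

variable {n : ℕ}

open scoped Classical in
/-- Difference graphs with few edges. -/
noncomputable def FA (n : ℕ) : Finset (SimpleGraph (Fin n)) :=
  univ.filter fun D => D ≠ ⊥ ∧ ∃ K : Finset (Fin n), (∀ u v, D.Adj u v → u ∈ K ∨ v ∈ K) ∧
    20 * (D.edgeSet.ncard : ℝ) * Real.logb 2 (100 * K.card) < n

open scoped Classical in
/-- Difference graphs with few vertices. -/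
noncomputable def FB (n : ℕ) : Finset (SimpleGraph (Fin n)) :=
  univ.filter fun D => D ≠ ⊥ ∧ 3 * D.support.ncard ^ 2 < n

open scoped Classical in
/-- The edges of a graph as a finset. -/
noncomputable def EF (D : SimpleGraph (Fin n)) : Finset (Sym2 (Fin n)) := D.edgeFinset

theorem EF_inj : Function.Injective (EF (n := n)) := by
  classical
  intro D D' h
  exact SimpleGraph.edgeFinset_inj.1 h

theorem card_EF (D : SimpleGraph (Fin n)) : (EF D).card = D.edgeSet.ncard := by
  classical
  rw [EF, Set.ncard_eq_toFinset_card']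
  congr 1

theorem mem_EF (D : SimpleGraph (Fin n)) (u v : Fin n) : s(u, v) ∈ EF D ↔ D.Adj u v := by
  classical
  rw [EF, SimpleGraph.mem_edgeFinset, SimpleGraph.mem_edgeSet]

theorem log_ge (k : ℕ) (hk : 1 ≤ k) : 6 ≤ Real.logb 2 (100 * k) := by
  have hk' : (1 : ℝ) ≤ k := by exact_mod_cast hk
  rw [Real.le_logb_iff_rpow_le (by norm_num) (by positivity)]
  have : (2 : ℝ) ^ (6 : ℝ) = 64 := by
    rw [show (6 : ℝ) = ((6 : ℕ) : ℝ) by norm_num, Real.rpow_natCast]
    norm_num
  rw [this]
  nlinarith

theorem edge_pos {D : SimpleGraph (Fin n)} (hD : D ≠ ⊥) : 1 ≤ (EF D).card := by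
  rw [Nat.one_le_iff_ne_zero]
  intro h
  rw [card_eq_zero] at h
  apply hD
  rw [SimpleGraph.eq_bot_iff_forall_not_adj]
  intro u v huv
  have := (mem_EF D u v).2 huv
  rw [h] at this
  exact absurd this (notMem_empty _)

/-- A small vertex cover contained in a given one. -/
theorem small_cover {D : SimpleGraph (Fin n)} (K : Finset (Fin n))
    (hK : ∀ u v, D.Adj u v → u ∈ K ∨ v ∈ K) :
    ∃ K' : Finset (Fin n), (∀ u v, D.Adj u v → u ∈ K' ∨ v ∈ K') ∧ K'.card ≤ (EF D).card ∧
      K'.card ≤ K.card := by
  classical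
  have h1 : ∀ e : Sym2 (Fin n), e ∈ EF D → ∃ w ∈ K, w ∈ e := by
    intro e
    induction e with
    | h u v =>
      intro he
      rw [mem_EF] at he
      rcases hK u v he with h | h
      · exact ⟨u, h, Sym2.mem_mk_left u v⟩
      · exact ⟨v, h, Sym2.mem_mk_right u v⟩
  have h1' : ∀ e : Sym2 (Fin n), ∃ w, e ∈ EF D → w ∈ K ∧ w ∈ e := by
    intro e
    by_cases he : e ∈ EF D
    · obtain ⟨w, h2, h3⟩ := h1 e he
      exact ⟨w, fun _ => ⟨h2, h3⟩⟩
    · induction e with
      | h u v => exact ⟨u, fun h => absurd h he⟩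
  choose c hc using h1'
  have hc1 : ∀ e ∈ EF D, c e ∈ K := fun e he => (hc e he).1
  have hc2 : ∀ e ∈ EF D, c e ∈ e := fun e he => (hc e he).2
  refine ⟨(EF D).image c, ?_, Finset.card_image_le, ?_⟩
  · intro u v huv
    have he := (mem_EF D u v).2 huv
    have h2 := hc2 _ he
    rw [Sym2.mem_iff] at h2
    rcases h2 with h2 | h2
    · left
      rw [← h2]
      exact mem_image_of_mem c he
    · right
      rw [← h2]
      exact mem_image_of_mem c he
  · refine Finset.card_le_card ?_
    intro w hw
    rw [mem_image] at hw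
    obtain ⟨e, he, rfl⟩ := hw
    exact hc1 e he

/-- Pairs meeting a set. -/
noncomputable def XK (K : Finset (Fin n)) : Finset (Sym2 (Fin n)) :=
  (K ×ˢ (univ : Finset (Fin n))).image fun p => s(p.1, p.2)

theorem card_XK (K : Finset (Fin n)) : (XK K).card ≤ K.card * n := by
  refine Finset.card_image_le.trans ?_
  rw [Finset.card_product, Finset.card_univ, Fintype.card_fin]

theorem EF_subset_XK {D : SimpleGraph (Fin n)} {K : Finset (Fin n)}
    (hK : ∀ u v, D.Adj u v → u ∈ K ∨ v ∈ K) : EF D ⊆ XK K := by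
  intro e
  induction e with
  | h u v =>
    intro he
    rw [mem_EF] at he
    rw [XK, mem_image]
    rcases hK u v he with h | h
    · exact ⟨(u, v), by simp [h], rfl⟩
    · exact ⟨(v, u), by simp [h], Sym2.eq_swap⟩

open scoped Classical in
/-- Admissible parameters. -/
noncomputable def OKp (n : ℕ) : Finset (ℕ × ℕ) :=
  (range (n + 1) ×ˢ range (n + 1)).filter fun p => 1 ≤ p.1 ∧ p.1 ≤ p.2 ∧
    20 * (p.2 : ℝ) * Real.logb 2 (100 * p.1) < n

theorem card_FA_le (n : ℕ) :
    (FA n).card ≤ ∑ p ∈ OKp n, n ^ p.1 * (p.1 * n).choose p.2 := by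
  classical
  have h1 : (FA n).image EF ⊆ (OKp n).biUnion fun p =>
      (powersetCard p.1 (univ : Finset (Fin n))).biUnion fun K => powersetCard p.2 (XK K) := by
    intro E hE
    rw [mem_image] at hE
    obtain ⟨D, hD, rfl⟩ := hE
    rw [FA, mem_filter] at hD
    obtain ⟨-, hne, K, hK, hlt⟩ := hD
    obtain ⟨K', hK', h2, h3⟩ := small_cover K hK
    have hm := edge_pos hne
    rw [← card_EF] at hlt
    have hk' : 1 ≤ K'.card := by
      rw [Nat.one_le_iff_ne_zero, Ne, card_eq_zero]
      rintro rfl
      obtain ⟨e, he⟩ := card_pos.1 hm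
      induction e with
      | h u v =>
        rw [mem_EF] at he
        rcases hK' u v he with h | h
        · exact notMem_empty _ h
        · exact notMem_empty _ h
    have hlog : Real.logb 2 (100 * K'.card) ≤ Real.logb 2 (100 * K.card) := by
      refine Real.logb_le_logb_of_le (by norm_num) ?_ ?_
      · have : (1 : ℝ) ≤ K'.card := by exact_mod_cast hk'
        linarith
      · have : (K'.card : ℝ) ≤ K.card := by exact_mod_cast h3
        linarith
    have hmR : (1 : ℝ) ≤ (EF D).card := by exact_mod_cast hm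
    have hlt' : 20 * ((EF D).card : ℝ) * Real.logb 2 (100 * K'.card) < n := by
      refine lt_of_le_of_lt ?_ hlt
      exact mul_le_mul_of_nonneg_left hlog (by positivity)
    have h6 := log_ge _ hk'
    have hmn : (EF D).card ≤ n := by
      have : ((EF D).card : ℝ) ≤ n := by nlinarith
      exact_mod_cast this
    rw [mem_biUnion]
    refine ⟨(K'.card, (EF D).card), ?_, ?_⟩
    · rw [OKp, mem_filter, mem_product, mem_range, mem_range]
      exact ⟨⟨by omega, by omega⟩, hk', h2, hlt'⟩
    · rw [mem_biUnion]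
      refine ⟨K', ?_, ?_⟩
      · rw [mem_powersetCard]
        exact ⟨subset_univ _, rfl⟩
      · rw [mem_powersetCard]
        exact ⟨EF_subset_XK hK', rfl⟩
  rw [← Finset.card_image_of_injective _ EF_inj]
  refine (Finset.card_le_card h1).trans ?_
  refine Finset.card_biUnion_le.trans ?_
  refine Finset.sum_le_sum fun p _ => ?_
  refine Finset.card_biUnion_le.trans ?_
  have h2 : ∀ K ∈ powersetCard p.1 (univ : Finset (Fin n)),
      (powersetCard p.2 (XK K)).card ≤ (p.1 * n).choose p.2 := by
    intro K hK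
    rw [mem_powersetCard] at hK
    rw [card_powersetCard]
    refine Nat.choose_le_choose _ ?_
    rw [← hK.2]
    exact card_XK K
  refine (Finset.sum_le_sum h2).trans ?_
  rw [Finset.sum_const, smul_eq_mul, card_powersetCard, Finset.card_univ, Fintype.card_fin]
  exact Nat.mul_le_mul_right _ (Nat.choose_le_pow n p.1)

open scoped Classical in
/-- Admissible sizes. -/
noncomputable def OKs (n : ℕ) : Finset ℕ := (range (n + 1)).filter fun s => 3 * s ^ 2 < n

theorem card_FB_le (n : ℕ) :
    (FB n).card ≤ ∑ s ∈ OKs n, n ^ s * 2 ^ ((s + 1).choose 2) := by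
  classical
  have h1 : (FB n).image EF ⊆ (OKs n).biUnion fun s =>
      (powersetCard s (univ : Finset (Fin n))).biUnion fun S => S.sym2.powerset := by
    intro E hE
    rw [mem_image] at hE
    obtain ⟨D, hD, rfl⟩ := hE
    rw [FB, mem_filter] at hD
    obtain ⟨-, hne, hlt⟩ := hD
    rw [mem_biUnion]
    refine ⟨D.support.ncard, ?_, ?_⟩
    · rw [OKs, mem_filter, mem_range]
      refine ⟨?_, hlt⟩
      have := Set.ncard_le_card D.support
      rw [Nat.card_eq_fintype_card, Fintype.card_fin] at this
      omega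
    · rw [mem_biUnion]
      refine ⟨D.support.toFinset, ?_, ?_⟩
      · rw [mem_powersetCard]
        refine ⟨subset_univ _, ?_⟩
        rw [Set.ncard_eq_toFinset_card']
      · rw [mem_powerset]
        intro e
        induction e with
        | h u v =>
          intro he
          rw [mem_EF] at he
          rw [Finset.mk_mem_sym2_iff, Set.mem_toFinset, Set.mem_toFinset,
            SimpleGraph.mem_support, SimpleGraph.mem_support]
          exact ⟨⟨v, he⟩, ⟨u, he.symm⟩⟩
  rw [← Finset.card_image_of_injective _ EF_inj]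
  refine (Finset.card_le_card h1).trans ?_
  refine Finset.card_biUnion_le.trans ?_
  refine Finset.sum_le_sum fun s _ => ?_
  refine Finset.card_biUnion_le.trans ?_
  have h2 : ∀ S ∈ powersetCard s (univ : Finset (Fin n)),
      (S.sym2.powerset).card ≤ 2 ^ ((s + 1).choose 2) := by
    intro S hS
    rw [mem_powersetCard] at hS
    rw [card_powerset, Finset.card_sym2, hS.2]
  refine (Finset.sum_le_sum h2).trans ?_
  rw [Finset.sum_const, smul_eq_mul, card_powersetCard, Finset.card_univ, Fintype.card_fin]
  exact Nat.mul_le_mul_right _ (Nat.choose_le_pow n s)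

theorem not_Triv_of_support {D : SimpleGraph (Fin n)} (hne : D ≠ ⊥)
    (h : D.support.ncard + 2 ≤ n) : ¬ Triv (toM D) := by
  classical
  have h1 : 1 < (D.support.toFinset)ᶜ.card := by
    rw [Finset.card_compl, Fintype.card_fin, ← Set.ncard_eq_toFinset_card']
    omega
  obtain ⟨z₁, hz₁, z₂, hz₂, hz⟩ := Finset.one_lt_card.1 h1
  rw [Finset.mem_compl, Set.mem_toFinset, SimpleGraph.mem_support] at hz₁ hz₂
  push Not at hz₁ hz₂
  exact not_Triv_of_isolated D hne z₁ z₂ hz hz₁ hz₂

theorem support_le (D : SimpleGraph (Fin n)) : D.support.ncard ≤ 2 * (EF D).card := by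
  classical
  have h1 : (D.support.toFinset).card ≤ ∑ v, D.degree v := by
    rw [Finset.card_eq_sum_ones]
    refine le_trans (Finset.sum_le_sum fun v hv => ?_)
      (Finset.sum_le_sum_of_subset (subset_univ (D.support.toFinset)))
    rw [Set.mem_toFinset, SimpleGraph.mem_support] at hv
    obtain ⟨w, hw⟩ := hv
    exact (SimpleGraph.degree_pos_iff_exists_adj (G := D) v).2 ⟨w, hw⟩
  rw [SimpleGraph.sum_degrees_eq_twice_card_edges] at h1
  rw [Set.ncard_eq_toFinset_card']
  refine h1.trans (le_of_eq ?_)
  rw [EF]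

theorem FA_not_Triv {D : SimpleGraph (Fin n)} (hD : D ∈ FA n) : ¬ Triv (toM D) := by
  classical
  rw [FA, mem_filter] at hD
  obtain ⟨-, hne, K, hK, hlt⟩ := hD
  have hm := edge_pos hne
  have hk : 1 ≤ K.card := by
    rw [Nat.one_le_iff_ne_zero, Ne, card_eq_zero]
    rintro rfl
    obtain ⟨e, he⟩ := card_pos.1 hm
    induction e with
    | h u v =>
      rw [mem_EF] at he
      rcases hK u v he with h | h
      · exact notMem_empty _ h
      · exact notMem_empty _ h
  rw [← card_EF] at hlt
  have h6 := log_ge _ hk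
  have hmR : (1 : ℝ) ≤ (EF D).card := by exact_mod_cast hm
  have h7 : 120 * ((EF D).card : ℝ) < n := by nlinarith
  have h8 : 120 * (EF D).card < n := by exact_mod_cast h7
  have := support_le D
  exact not_Triv_of_support hne (by omega)

theorem FB_not_Triv {D : SimpleGraph (Fin n)} (hD : D ∈ FB n) : ¬ Triv (toM D) := by
  classical
  rw [FB, mem_filter] at hD
  obtain ⟨-, hne, hlt⟩ := hD
  have hs : 1 ≤ D.support.ncard := by
    rw [Nat.one_le_iff_ne_zero]
    intro h0
    rw [Set.ncard_eq_zero] at h0
    apply hne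
    rw [SimpleGraph.eq_bot_iff_forall_not_adj]
    intro u v huv
    have : u ∈ D.support := (SimpleGraph.mem_support D).2 ⟨v, huv⟩
    rw [h0] at this
    exact this
  exact not_Triv_of_support hne (by nlinarith)

end DS
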