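import Pool.Agent.helper62.DS.Lim

/-!
# The final statements
-/

set_option autoImplicit false
set_option linter.unusedSectionVars false

namespace DS

open Finset Filter Topology

open scoped Classical in
/-- `G` has no cospectral graph nearby. -/
def LocDet (n : ℕ) (G : SimpleGraph (Fin n)) : Prop :=
  ∀ H : SimpleGraph (Fin n), H ≠ G → (H.adjMatrix ℤ).charpoly = (G.adjMatrix ℤ).charpoly →
    (∀ K : Finset (Fin n), (∀ u v, (symmDiff G H).Adj u v → u ∈ K ∨ v ∈ K) →
      (n : ℝ) ≤ 20 * ((symmDiff G H).edgeSet.ncard : ℝ) * Real.logb 2 (100 * K.card)) ∧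
    n ≤ 3 * (symmDiff G H).support.ncard ^ 2

theorem LocDet_of_not_Near {n : ℕ} {G : SimpleGraph (Fin n)} (h : ¬ Near n G) : LocDet n G := by
  classical
  intro H hH hc
  have hne : symmDiff G H ≠ ⊥ := by
    intro h0
    exact hH (symmDiff_eq_bot.1 h0).symm
  have hcosp : Cosp G (symmDiff G (symmDiff G H)) := by
    rw [symmDiff_symmDiff_cancel_left]
    exact hc
  constructor
  · intro K hK
    by_contra hlt
    push Not at hlt
    refine h ⟨symmDiff G H, (mem_FF _).2 (Or.inl ?_), hcosp⟩
    rw [FA, mem_filter]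
    exact ⟨mem_univ _, hne, K, hK, hlt⟩
  · by_contra hlt
    push Not at hlt
    refine h ⟨symmDiff G H, (mem_FF _).2 (Or.inr ?_), hcosp⟩
    rw [FB, mem_filter]
    exact ⟨mem_univ _, hne, hlt⟩

theorem tendsto_LocDet : Tendsto (fun n : ℕ =>
    (Nat.card {G : SimpleGraph (Fin n) // LocDet n G} : ℝ) / Nat.card (SimpleGraph (Fin n)))
    atTop (𝓝 1) := by
  classical
  have h1 : Tendsto (fun n : ℕ => 1 -
      (Nat.card {G : SimpleGraph (Fin n) // Near n G} : ℝ) / Nat.card (SimpleGraph (Fin n)))
      atTop (𝓝 1) := by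
    have := near_small.const_sub 1
    rwa [sub_zero] at this
  refine tendsto_of_tendsto_of_tendsto_of_le_of_le h1 tendsto_const_nhds ?_ ?_
  · intro n
    have hcard : (0 : ℝ) < Nat.card (SimpleGraph (Fin n)) := by
      exact_mod_cast Nat.card_pos
    dsimp only
    rw [sub_le_iff_le_add, ← add_div, one_le_div hcard]
    have h2 : Nat.card (SimpleGraph (Fin n)) ≤
        Nat.card {G : SimpleGraph (Fin n) // LocDet n G} +
        Nat.card {G : SimpleGraph (Fin n) // Near n G} := by
      rw [Nat.card_eq_fintype_card, Nat.card_eq_fintype_card, Nat.card_eq_fintype_card,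
        Fintype.card_subtype, Fintype.card_subtype, ← Finset.card_univ]
      refine le_trans (Finset.card_le_card ?_) (Finset.card_union_le _ _)
      intro G _
      rw [mem_union, mem_filter, mem_filter]
      by_cases hG : Near n G
      · exact Or.inr ⟨mem_univ _, hG⟩
      · exact Or.inl ⟨mem_univ _, LocDet_of_not_Near hG⟩
    exact_mod_cast h2
  · intro n
    dsimp only
    refine div_le_one_of_le₀ ?_ (Nat.cast_nonneg _)
    have := Finite.card_subtype_le (fun G : SimpleGraph (Fin n) => LocDet n G)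
    exact_mod_cast this

/-- A pattern of differences which is neither a complete bipartite graph on the whole vertex
set (one part may be empty) nor the complement of one. -/
theorem not_Triv_of {V : Type*} [Fintype V] [DecidableEq V] {D : SimpleGraph V}
    (h1 : ¬ ∃ S : Set V, ∀ u v, D.Adj u v ↔ ((u ∈ S) ↔ ¬ (v ∈ S)))
    (h2 : ¬ ∃ S : Set V, ∀ u v, D.Adj u v ↔ (u ≠ v ∧ ((u ∈ S) ↔ (v ∈ S)))) :
    ¬ Triv (toM D) := by
  classical
  rintro ⟨s, κ, h⟩
  have hs : ∀ x y : F, (x + y = 1) ↔ (x = 1 ↔ ¬ y = 1) := by decide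
  have hs' : ∀ x y : F, (x + y + 1 = 1) ↔ (x = 1 ↔ y = 1) := by decide
  have hadj : ∀ u v, u ≠ v → (D.Adj u v ↔ s u + s v + κ = 1) := by
    intro u v huv
    rw [← h u v huv, toM_apply]
    by_cases hA : D.Adj u v
    · simp [hA]
    · simp [hA]
  rcases F_cases κ with rfl | rfl
  · refine h1 ⟨{v | s v = 1}, fun u v => ?_⟩
    by_cases huv : u = v
    · subst huv
      simp
    · rw [hadj u v huv, add_zero, hs]
      rfl
  · refine h2 ⟨{v | s v = 1}, fun u v => ?_⟩
    by_cases huv : u = v
    · subst huv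
      simp
    · rw [hadj u v huv, hs']
      constructor
      · intro h3
        exact ⟨huv, h3⟩
      · intro h3
        exact h3.2

end DS
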