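import Pool.Agent.helper62.DS.Tr

/-!
# From matrices modulo two to graphs
-/

set_option autoImplicit false
set_option linter.unusedSectionVars false

namespace DS

open Matrix Finset

variable {V : Type*} [Fintype V] [DecidableEq V]

/-- The trivial patterns: complete bipartite graphs on the whole vertex set and their
complements, as matrices modulo two. -/
def Triv (D : Matrix V V F) : Prop :=
  ∃ (s : V → F) (κ : F), ∀ u v, u ≠ v → D u v = s u + s v + κ

theorem card_CS_gen (D : Matrix V V F) (hD : IsAlt D) (hne : ¬ Triv D)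
    (J : ℕ) (hJ : 5 * J + 1 ≤ Fintype.card V) :
    (CS D).card * 2 ^ J ≤ 3 * (altSet V).card := by
  have hsymm : ∀ u v, D u v = D v u := fun u v => congrFun (congrFun hD.1 v) u
  by_cases h : ∃ y, (∃ w, w ≠ y ∧ (D *ᵥ 1) w - D w y ≠ 0) ∧
      (∃ w, w ≠ y ∧ (D *ᵥ 1) w - D w y ≠ 1)
  · obtain ⟨y, h0, h1⟩ := h
    exact card_CS_of D hD y h0 h1 J hJ
  · exfalso
    push Not at h
    have hc : ∀ y, ∃ c : F, ∀ w, w ≠ y → (D *ᵥ 1) w - D w y = c := by
      intro y
      by_cases h0 : ∃ w, w ≠ y ∧ (D *ᵥ 1) w - D w y ≠ 0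
      · exact ⟨1, h y h0⟩
      · push Not at h0
        exact ⟨0, h0⟩
    choose c hc using hc
    apply hne
    rcases isEmpty_or_nonempty V with hV | ⟨⟨y₀⟩⟩
    · exact ⟨0, 0, fun u => (hV.false u).elim⟩
    · have e1 : ∀ x y z : F, x - y = z → y = x + z := by decide
      have e2 : ∀ a b c' d : F, a + b = c' + d → b + c' = d + a := by decide
      have e3 : ∀ a b c' : F, b + a = c' → b = a + c' := by decide
      have hD' : ∀ w y, w ≠ y → D w y = (D *ᵥ 1) w + c y := fun w y hwy => e1 _ _ _ (hc y w hwy)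
      have hk : ∀ y, c y = (D *ᵥ 1) y + (c y₀ + (D *ᵥ 1) y₀) := by
        intro y
        by_cases hy : y = y₀
        · subst hy
          have : ∀ a b : F, a = b + (a + b) := by decide
          exact this _ _
        · have h1 := hD' y y₀ hy
          have h2 := hD' y₀ y (Ne.symm hy)
          rw [hsymm] at h1
          rw [h2] at h1
          have : ∀ a b c' d : F, a + b = c' + d → b = c' + (d + a) := by decide
          exact this _ _ _ _ h1
      refine ⟨D *ᵥ 1, c y₀ + (D *ᵥ 1) y₀, fun u v huv => ?_⟩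
      rw [hD' u v huv, hk v, add_assoc]

open scoped Classical in
/-- The adjacency matrix modulo two. -/
noncomputable def toM (G : SimpleGraph V) : Matrix V V F :=
  Matrix.of fun u v => if G.Adj u v then 1 else 0

open scoped Classical in
theorem toM_apply (G : SimpleGraph V) (u v : V) : toM G u v = if G.Adj u v then 1 else 0 := rfl

theorem toM_alt (G : SimpleGraph V) : IsAlt (toM G) := by
  classical
  constructor
  · ext u v
    rw [transpose_apply, toM_apply, toM_apply]
    simp only [G.adj_comm]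
  · intro w
    rw [toM_apply, if_neg (G.loopless.irrefl w)]

theorem toM_inj : Function.Injective (toM (V := V)) := by
  classical
  intro G H h
  ext u v
  have := congrFun (congrFun h u) v
  rw [toM_apply, toM_apply] at this
  by_cases h1 : G.Adj u v <;> by_cases h2 : H.Adj u v <;> simp [h1, h2] at this ⊢

theorem toM_symmDiff (G D : SimpleGraph V) : toM (symmDiff G D) = toM G + toM D := by
  classical
  ext u v
  rw [Matrix.add_apply, toM_apply, toM_apply, toM_apply]
  have : (symmDiff G D).Adj u v ↔ (G.Adj u v ∧ ¬ D.Adj u v) ∨ (D.Adj u v ∧ ¬ G.Adj u v) := by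
    rw [symmDiff_def, SimpleGraph.sup_adj, SimpleGraph.sdiff_adj, SimpleGraph.sdiff_adj]
  simp only [this]
  by_cases h1 : G.Adj u v <;> by_cases h2 : D.Adj u v <;> simp [h1, h2]
  rfl

/-- The graph of a matrix. -/
def ofM (A : Matrix V V F) : SimpleGraph V where
  Adj u v := u ≠ v ∧ A u v = 1 ∧ A v u = 1
  symm := ⟨fun _ _ h => ⟨h.1.symm, h.2.2, h.2.1⟩⟩
  loopless := ⟨fun _ h => h.1 rfl⟩

theorem toM_ofM {A : Matrix V V F} (hA : IsAlt A) : toM (ofM A) = A := by
  classical
  ext u v
  have hs : A v u = A u v := congrFun (congrFun hA.1 u) v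
  rw [toM_apply]
  by_cases huv : u = v
  · subst huv
    rw [hA.2, if_neg]
    exact fun h => h.1 rfl
  · by_cases h : A u v = 1
    · rw [if_pos, h]
      exact ⟨huv, h, hs.trans h⟩
    · rw [if_neg]
      · rcases F_cases (A u v) with h1 | h1
        · exact h1.symm
        · exact absurd h1 h
      · exact fun h2 => h h2.2.1

theorem card_alt_eq : (altSet V).card = Nat.card (SimpleGraph V) := by
  classical
  have : Nat.card (SimpleGraph V) = Nat.card {A : Matrix V V F // A ∈ altSet V} := by
    refine Nat.card_congr ⟨fun G => ⟨toM G, (mem_altSet _).2 (toM_alt G)⟩, fun A => ofM A.1,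
      fun G => ?_, fun A => ?_⟩
    · exact toM_inj (toM_ofM (toM_alt G))
    · exact Subtype.ext (toM_ofM ((mem_altSet _).1 A.2))
  rw [this, Nat.card_eq_fintype_card, Fintype.card_coe]

theorem Er_eq_of_charpoly {M M' : Matrix V V F} (h : M.charpoly = M'.charpoly) :
    Er M = Er M' := by
  have key : ∀ M : Matrix V V F, Er M = (M.charpolyRev : PowerSeries F) := by
    intro M
    have h2 : ((M.charpolyRev : Polynomial F) : PowerSeries F) =
        Polynomial.coeToPowerSeries.ringHom M.charpolyRev := rfl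
    rw [h2, Matrix.charpolyRev, RingHom.map_det, Er]
    congr 1
    ext i j k
    simp only [RingHom.mapMatrix_apply, Matrix.map_apply, Matrix.add_apply, Matrix.sub_apply,
      Matrix.smul_apply, smul_eq_mul, map_sub, map_add, map_mul,
      Polynomial.coeToPowerSeries.ringHom_apply, Polynomial.coe_X, Polynomial.coe_C]
    have e1 : ((1 : Matrix V V (Polynomial F)) i j : PowerSeries F) =
        (1 : Matrix V V (PowerSeries F)) i j := by
      by_cases hij : i = j
      · subst hij
        simp
      · simp [Matrix.one_apply_ne hij]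
    rw [e1]
    have : ∀ x y : F, x + y = x - y := by decide
    exact this _ _
  rw [key, key, ← Matrix.reverse_charpoly, ← Matrix.reverse_charpoly, h]

theorem toM_eq (G : SimpleGraph V) [DecidableRel G.Adj] :
    (G.adjMatrix ℤ).map (Int.castRingHom F) = toM G := by
  ext u v
  rw [Matrix.map_apply, SimpleGraph.adjMatrix_apply, toM_apply]
  by_cases h : G.Adj u v <;> simp [h]

open scoped Classical in
/-- Cospectral graphs. -/
def Cosp (G H : SimpleGraph V) : Prop :=
  (H.adjMatrix ℤ).charpoly = (G.adjMatrix ℤ).charpoly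

theorem Cosp.Er {G H : SimpleGraph V} (h : Cosp G H) : Er (toM G) = Er (toM H) := by
  classical
  refine Er_eq_of_charpoly ?_
  rw [← toM_eq, ← toM_eq, Matrix.charpoly_map, Matrix.charpoly_map]
  exact (congrArg _ h).symm

theorem natcard_le {α β : Type*} (p : α → Prop) (S : Finset β) (f : α → β)
    (hf : Function.Injective f) (hS : ∀ a, p a → f a ∈ S) : Nat.card {a // p a} ≤ S.card := by
  have h := Nat.card_le_card_of_injective
    (fun a : {a // p a} => (⟨f a.1, hS a.1 a.2⟩ : {b // b ∈ S})) (fun a b hab => by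
      refine Subtype.ext (hf ?_)
      exact congrArg Subtype.val hab)
  rwa [Nat.card_eq_fintype_card (α := {b // b ∈ S}), Fintype.card_coe] at h

/-- The bound for one difference graph. -/
theorem card_Cosp (D : SimpleGraph V) (hD : ¬ Triv (toM D)) (J : ℕ)
    (hJ : 5 * J + 1 ≤ Fintype.card V) :
    Nat.card {G : SimpleGraph V // Cosp G (symmDiff G D)} * 2 ^ J ≤
      3 * Nat.card (SimpleGraph V) := by
  rw [← card_alt_eq]
  refine le_trans (Nat.mul_le_mul_right _ ?_) (card_CS_gen (toM D) (toM_alt D) hD J hJ)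
  refine natcard_le _ _ toM toM_inj fun G hG => ?_
  rw [mem_CS]
  refine ⟨toM_alt G, ?_⟩
  rw [← toM_symmDiff]
  exact hG.Er

/-- A nonempty graph with two isolated vertices is not a trivial pattern. -/
theorem not_Triv_of_isolated (D : SimpleGraph V) (hne : D ≠ ⊥) (z₁ z₂ : V) (hz : z₁ ≠ z₂)
    (hz₁ : ∀ v, ¬ D.Adj z₁ v) (hz₂ : ∀ v, ¬ D.Adj z₂ v) : ¬ Triv (toM D) := by
  classical
  rintro ⟨s, κ, h⟩
  have h1 : ∀ v, v ≠ z₁ → 0 = s z₁ + s v + κ := by
    intro v hv
    rw [← h z₁ v hv.symm, toM_apply, if_neg (hz₁ v)]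
  have h2 : ∀ v, v ≠ z₂ → 0 = s z₂ + s v + κ := by
    intro v hv
    rw [← h z₂ v hv.symm, toM_apply, if_neg (hz₂ v)]
  apply hne
  rw [SimpleGraph.eq_bot_iff_forall_not_adj]
  intro u v huv
  have hu1 : u ≠ z₁ := by
    rintro rfl
    exact hz₁ v huv
  have hu2 : u ≠ z₂ := by
    rintro rfl
    exact hz₂ v huv
  have hv1 : v ≠ z₁ := by
    rintro rfl
    exact hz₁ u huv.symm
  have hv2 : v ≠ z₂ := by
    rintro rfl
    exact hz₂ u huv.symm
  have e := h u v huv.ne
  rw [toM_apply, if_pos huv] at e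
  have a1 := h1 u hu1
  have a2 := h1 v hv1
  have a3 := h2 u hu2
  have a4 := h1 z₂ hz.symm
  have : ∀ a b c d k : F, 0 = a + c + k → 0 = a + d + k → 0 = b + c + k → 0 = a + b + k →
      1 ≠ c + d + k := by decide
  exact this _ _ _ _ _ a1 a2 a3 a4 e

/-- The bound for a finite family of difference graphs. -/
theorem card_Cosp_family (S : Finset (SimpleGraph V)) (hS : ∀ D ∈ S, ¬ Triv (toM D)) (J : ℕ)
    (hJ : 5 * J + 1 ≤ Fintype.card V) :
    Nat.card {G : SimpleGraph V // ∃ D ∈ S, Cosp G (symmDiff G D)} * 2 ^ J ≤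
      3 * (S.card * Nat.card (SimpleGraph V)) := by
  classical
  have h1 : Nat.card {G : SimpleGraph V // ∃ D ∈ S, Cosp G (symmDiff G D)} ≤
      ∑ D ∈ S, Nat.card {G : SimpleGraph V // Cosp G (symmDiff G D)} := by
    have h2 : ∀ D : SimpleGraph V, Nat.card {G : SimpleGraph V // Cosp G (symmDiff G D)} =
        (univ.filter fun G : SimpleGraph V => Cosp G (symmDiff G D)).card := by
      intro D
      rw [Nat.card_eq_fintype_card, Fintype.card_subtype]
    rw [Finset.sum_congr rfl fun D _ => h2 D]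
    refine le_trans ?_ Finset.card_biUnion_le
    refine natcard_le _ _ id Function.injective_id ?_
    rintro G ⟨D, hD, h⟩
    rw [mem_biUnion]
    exact ⟨D, hD, mem_filter.2 ⟨mem_univ _, h⟩⟩
  calc _ ≤ (∑ D ∈ S, Nat.card {G : SimpleGraph V // Cosp G (symmDiff G D)}) * 2 ^ J :=
        Nat.mul_le_mul_right _ h1
    _ = ∑ D ∈ S, Nat.card {G : SimpleGraph V // Cosp G (symmDiff G D)} * 2 ^ J := by
        rw [Finset.sum_mul]
    _ ≤ ∑ D ∈ S, 3 * Nat.card (SimpleGraph V) :=
        Finset.sum_le_sum fun D hD => card_Cosp D (hS D hD) J hJ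
    _ = _ := by rw [Finset.sum_const, smul_eq_mul]; ring

end DS
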