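import Pool.Agent.helper62.DS.Fam

/-!
# The union bound and the limit
-/

set_option autoImplicit false
set_option linter.unusedSectionVars false

namespace DS

open Finset Filter Topology

theorem choose_mul_pow_le (N m : ℕ) (x : ℝ) (hx : 0 ≤ x) :
    (N.choose m : ℝ) * x ^ m ≤ (1 + x) ^ N := by
  rcases Nat.lt_or_ge N m with h | h
  · rw [Nat.choose_eq_zero_of_lt h, Nat.cast_zero, zero_mul]
    positivity
  · rw [add_comm 1 x, add_pow]
    have h1 := Finset.single_le_sum (f := fun i => x ^ i * 1 ^ (N - i) * (N.choose i : ℝ))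
      (s := range (N + 1)) (fun i _ => by positivity) (mem_range.2 (Nat.lt_succ_of_le h))
    simp only [one_pow, mul_one] at h1 ⊢
    rw [mul_comm]
    exact h1

theorem pow_eq_rpow (X : ℝ) (hX : 0 < X) (m : ℕ) : X ^ m = (2 : ℝ) ^ (m * Real.logb 2 X) := by
  rw [mul_comm, Real.rpow_mul (by norm_num), Real.rpow_logb (by norm_num) (by norm_num) hX,
    Real.rpow_natCast]

theorem le_sqrt_of_sq {k n : ℕ} (h : k ^ 2 ≤ n) : (k : ℝ) ≤ √(n : ℝ) := by
  apply Real.le_sqrt_of_sq_le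
  exact_mod_cast h

theorem exp_le_two (n : ℕ) : Real.exp (n / 100) ≤ (2 : ℝ) ^ ((n : ℝ) / 50) := by
  rw [Real.rpow_def_of_pos (by norm_num)]
  refine Real.exp_le_exp.2 ?_
  have h := Real.log_two_gt_d9
  have hn : (0 : ℝ) ≤ n := Nat.cast_nonneg n
  nlinarith

theorem boundA {n k m : ℕ} (hk : 1 ≤ k) (hkm : k ≤ m)
    (h : 20 * (m : ℝ) * Real.logb 2 (100 * k) < n) :
    (n : ℝ) ^ k * ((k * n).choose m : ℝ) ≤
      (2 : ℝ) ^ (17 / 100 * (n : ℝ) + √(n : ℝ) * Real.logb 2 n) := by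
  have hkR : (1 : ℝ) ≤ k := by exact_mod_cast hk
  have hkmR : (k : ℝ) ≤ m := by exact_mod_cast hkm
  have h6 := log_ge k hk
  have hnpos : (0 : ℝ) < n := by nlinarith
  have hn1 : 1 ≤ n := by
    have : 0 < n := by exact_mod_cast hnpos
    omega
  have hn1R : (1 : ℝ) ≤ n := by exact_mod_cast hn1
  have hL : 0 ≤ Real.logb 2 (n : ℝ) := Real.logb_nonneg (by norm_num) hn1R
  have hs : 0 ≤ √(n : ℝ) := Real.sqrt_nonneg _
  have hX : (0 : ℝ) < 100 * k := by linarith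
  -- the binomial coefficient
  have h1 : ((k * n).choose m : ℝ) ≤ (2 : ℝ) ^ ((n : ℝ) / 20) * (2 : ℝ) ^ ((n : ℝ) / 50) := by
    have h2 := choose_mul_pow_le (k * n) m (1 / (100 * k)) (by positivity)
    have h3 : (1 + 1 / (100 * (k : ℝ))) ^ (k * n) ≤ Real.exp (n / 100) := by
      have h4 : 1 + 1 / (100 * (k : ℝ)) ≤ Real.exp (1 / (100 * (k : ℝ))) := by
        rw [add_comm]
        exact Real.add_one_le_exp _
      calc (1 + 1 / (100 * (k : ℝ))) ^ (k * n) ≤ (Real.exp (1 / (100 * (k : ℝ)))) ^ (k * n) :=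
            pow_le_pow_left₀ (by positivity) h4 _
        _ = Real.exp (((k * n : ℕ) : ℝ) * (1 / (100 * (k : ℝ)))) := by rw [Real.exp_nat_mul]
        _ = Real.exp (n / 100) := by
            congr 1
            push_cast
            field_simp
    have h5 : (100 * (k : ℝ)) ^ m ≤ (2 : ℝ) ^ ((n : ℝ) / 20) := by
      rw [pow_eq_rpow _ hX]
      refine Real.rpow_le_rpow_of_exponent_le (by norm_num) ?_
      linarith
    have h7 : ((k * n).choose m : ℝ) = (((k * n).choose m : ℝ) * (1 / (100 * (k : ℝ))) ^ m) *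
        (100 * (k : ℝ)) ^ m := by
      rw [mul_assoc, ← mul_pow, one_div_mul_cancel hX.ne', one_pow, mul_one]
    rw [h7]
    calc _ ≤ (2 : ℝ) ^ ((n : ℝ) / 50) * (2 : ℝ) ^ ((n : ℝ) / 20) :=
          mul_le_mul (h2.trans (h3.trans (exp_le_two n))) h5 (by positivity) (by positivity)
      _ = _ := mul_comm _ _
  -- the choice of the cover
  have h2 : (n : ℝ) ^ k ≤ (2 : ℝ) ^ (√(n : ℝ) * Real.logb 2 n + (n : ℝ) / 10) := by
    rw [pow_eq_rpow _ hnpos]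
    refine Real.rpow_le_rpow_of_exponent_le (by norm_num) ?_
    rcases Nat.lt_or_ge n (k ^ 2) with hkn | hkn
    · have h3 : Real.logb 2 (n : ℝ) ≤ 2 * Real.logb 2 (100 * k) := by
        have h4 : Real.logb 2 (n : ℝ) ≤ Real.logb 2 ((100 * k) ^ 2) := by
          refine Real.logb_le_logb_of_le (by norm_num) hnpos ?_
          have h5 : (n : ℝ) < (k : ℝ) ^ 2 := by exact_mod_cast hkn
          nlinarith
        rwa [Real.logb_pow, Nat.cast_ofNat] at h4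
      have h4 : (k : ℝ) * Real.logb 2 n ≤ m * (2 * Real.logb 2 (100 * k)) :=
        mul_le_mul hkmR h3 hL (by linarith)
      have h5 : 0 ≤ √(n : ℝ) * Real.logb 2 n := mul_nonneg hs hL
      nlinarith
    · have h3 := le_sqrt_of_sq hkn
      have h4 : (k : ℝ) * Real.logb 2 n ≤ √(n : ℝ) * Real.logb 2 n :=
        mul_le_mul_of_nonneg_right h3 hL
      linarith
  calc (n : ℝ) ^ k * ((k * n).choose m : ℝ)
      ≤ (2 : ℝ) ^ (√(n : ℝ) * Real.logb 2 n + (n : ℝ) / 10) *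
        ((2 : ℝ) ^ ((n : ℝ) / 20) * (2 : ℝ) ^ ((n : ℝ) / 50)) :=
        mul_le_mul h2 h1 (by positivity) (by positivity)
    _ = _ := by
        rw [← Real.rpow_add (by norm_num), ← Real.rpow_add (by norm_num)]
        congr 1
        ring

theorem boundB {n s : ℕ} (h : 3 * s ^ 2 < n) :
    (n : ℝ) ^ s * (2 : ℝ) ^ ((s + 1).choose 2) ≤
      (2 : ℝ) ^ (17 / 100 * (n : ℝ) + √(n : ℝ) + √(n : ℝ) * Real.logb 2 n) := by
  have hn1 : 1 ≤ n := by omega
  have hn1R : (1 : ℝ) ≤ n := by exact_mod_cast hn1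
  have hL : 0 ≤ Real.logb 2 (n : ℝ) := Real.logb_nonneg (by norm_num) hn1R
  have hs : (s : ℝ) ≤ √(n : ℝ) := le_sqrt_of_sq (by nlinarith)
  have h3 : 3 * (s : ℝ) ^ 2 < n := by exact_mod_cast h
  have e1 : (2 : ℝ) ^ ((s + 1).choose 2) = (2 : ℝ) ^ (((s : ℝ) + 1) * s / 2) := by
    rw [← Real.rpow_natCast, Nat.cast_choose_two]
    push_cast
    congr 2
    ring
  rw [e1, pow_eq_rpow _ (by linarith), ← Real.rpow_add (by norm_num)]
  refine Real.rpow_le_rpow_of_exponent_le (by norm_num) ?_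
  have h4 : (s : ℝ) * Real.logb 2 n ≤ √(n : ℝ) * Real.logb 2 n :=
    mul_le_mul_of_nonneg_right hs hL
  have hs0 : (0 : ℝ) ≤ s := Nat.cast_nonneg s
  nlinarith

theorem card_FA_bound {n : ℕ} : ((FA n).card : ℝ) ≤
    ((n : ℝ) + 1) ^ 2 * (2 : ℝ) ^ (17 / 100 * (n : ℝ) + √(n : ℝ) * Real.logb 2 n) := by
  classical
  have h1 : ((FA n).card : ℝ) ≤ ∑ p ∈ OKp n, (n : ℝ) ^ p.1 * ((p.1 * n).choose p.2 : ℝ) := by
    have := card_FA_le n
    exact_mod_cast this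
  refine h1.trans ?_
  have h2 : ∀ p ∈ OKp n, (n : ℝ) ^ p.1 * ((p.1 * n).choose p.2 : ℝ) ≤
      (2 : ℝ) ^ (17 / 100 * (n : ℝ) + √(n : ℝ) * Real.logb 2 n) := by
    intro p hp
    rw [OKp, mem_filter] at hp
    exact boundA hp.2.1 hp.2.2.1 hp.2.2.2
  refine (Finset.sum_le_card_nsmul _ _ _ h2).trans ?_
  rw [nsmul_eq_mul]
  refine mul_le_mul_of_nonneg_right ?_ (by positivity)
  have h3 : (OKp n).card ≤ (n + 1) ^ 2 := by
    rw [OKp]
    refine (Finset.card_filter_le _ _).trans ?_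
    rw [card_product, card_range, sq]
  exact_mod_cast h3

theorem card_FB_bound {n : ℕ} : ((FB n).card : ℝ) ≤
    ((n : ℝ) + 1) * (2 : ℝ) ^ (17 / 100 * (n : ℝ) + √(n : ℝ) + √(n : ℝ) * Real.logb 2 n) := by
  classical
  have h1 : ((FB n).card : ℝ) ≤ ∑ s ∈ OKs n, (n : ℝ) ^ s * (2 : ℝ) ^ ((s + 1).choose 2) := by
    have := card_FB_le n
    exact_mod_cast this
  refine h1.trans ?_
  have h2 : ∀ s ∈ OKs n, (n : ℝ) ^ s * (2 : ℝ) ^ ((s + 1).choose 2) ≤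
      (2 : ℝ) ^ (17 / 100 * (n : ℝ) + √(n : ℝ) + √(n : ℝ) * Real.logb 2 n) := by
    intro s hs
    rw [OKs, mem_filter] at hs
    exact boundB hs.2
  refine (Finset.sum_le_card_nsmul _ _ _ h2).trans ?_
  rw [nsmul_eq_mul]
  refine mul_le_mul_of_nonneg_right ?_ (by positivity)
  have h3 : (OKs n).card ≤ n + 1 := by
    rw [OKs]
    refine (Finset.card_filter_le _ _).trans ?_
    rw [card_range]
  exact_mod_cast h3

theorem ev_small : ∀ᶠ n : ℕ in atTop,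
    2 * ((n : ℝ) + 1) ^ 2 * (2 : ℝ) ^ (√(n : ℝ) + √(n : ℝ) * Real.logb 2 n) ≤
      (2 : ℝ) ^ (2 / 100 * (n : ℝ)) := by
  have h1 : (fun x : ℝ => Real.log x) =o[atTop] (fun x => x ^ (1 / 2 : ℝ)) :=
    isLittleO_log_rpow_atTop (by norm_num)
  have h2 := (h1.def (c := 1 / 1000) (by norm_num)).natCast_atTop
  filter_upwards [h2, eventually_ge_atTop 1000000] with n hn hn6
  have hn6R : (1000000 : ℝ) ≤ n := by exact_mod_cast hn6
  have hs : (1000 : ℝ) ≤ √(n : ℝ) := by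
    apply Real.le_sqrt_of_sq_le
    have e : (1000 : ℝ) ^ 2 = 1000000 := by norm_num
    rw [e]
    exact hn6R
  have hsq : √(n : ℝ) * √(n : ℝ) = n := Real.mul_self_sqrt (by linarith)
  have hlog : Real.log n ≤ 1 / 1000 * √(n : ℝ) := by
    rw [← Real.sqrt_eq_rpow, Real.norm_of_nonneg (Real.log_nonneg (by linarith)),
      Real.norm_of_nonneg (Real.sqrt_nonneg _)] at hn
    exact hn
  have hlogb : Real.logb 2 n ≤ 2 / 1000 * √(n : ℝ) := by
    rw [Real.logb, div_le_iff₀ (Real.log_pos (by norm_num))]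
    have := Real.log_two_gt_d9
    nlinarith
  have h3 : 2 * ((n : ℝ) + 1) ^ 2 ≤ (n : ℝ) ^ 4 := by
    have a1 : ((n : ℝ) + 1) ^ 2 ≤ (2 * (n : ℝ)) ^ 2 :=
      pow_le_pow_left₀ (by linarith) (by linarith) 2
    have a2 : (8 : ℝ) ≤ (n : ℝ) ^ 2 := by nlinarith
    have a3 : 8 * (n : ℝ) ^ 2 ≤ (n : ℝ) ^ 2 * (n : ℝ) ^ 2 :=
      mul_le_mul_of_nonneg_right a2 (by positivity)
    calc 2 * ((n : ℝ) + 1) ^ 2 ≤ 2 * (2 * (n : ℝ)) ^ 2 := by linarith
      _ = 8 * (n : ℝ) ^ 2 := by ring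
      _ ≤ (n : ℝ) ^ 2 * (n : ℝ) ^ 2 := a3
      _ = (n : ℝ) ^ 4 := by ring
  have h4 : (n : ℝ) ^ 4 = (2 : ℝ) ^ (4 * Real.logb 2 n) := by
    have := pow_eq_rpow (n : ℝ) (by linarith) 4
    rw [this]
    norm_num
  calc 2 * ((n : ℝ) + 1) ^ 2 * (2 : ℝ) ^ (√(n : ℝ) + √(n : ℝ) * Real.logb 2 n)
      ≤ (2 : ℝ) ^ (4 * Real.logb 2 n) * (2 : ℝ) ^ (√(n : ℝ) + √(n : ℝ) * Real.logb 2 n) := by
        rw [← h4]
        exact mul_le_mul_of_nonneg_right h3 (by positivity)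
    _ = (2 : ℝ) ^ (4 * Real.logb 2 n + (√(n : ℝ) + √(n : ℝ) * Real.logb 2 n)) := by
        rw [← Real.rpow_add (by norm_num)]
    _ ≤ _ := by
        refine Real.rpow_le_rpow_of_exponent_le (by norm_num) ?_
        have h5 : √(n : ℝ) * Real.logb 2 n ≤ √(n : ℝ) * (2 / 1000 * √(n : ℝ)) :=
          mul_le_mul_of_nonneg_left hlogb (by linarith)
        nlinarith

theorem family_small : ∀ᶠ n : ℕ in atTop,
    (((FA n).card : ℝ) + (FB n).card) ≤ (2 : ℝ) ^ (19 / 100 * (n : ℝ)) := by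
  filter_upwards [ev_small, eventually_ge_atTop 1] with n hn hn1
  have hn1R : (1 : ℝ) ≤ n := by exact_mod_cast hn1
  have hs := Real.sqrt_nonneg (n : ℝ)
  have h1 := card_FA_bound (n := n)
  have h2 := card_FB_bound (n := n)
  have h3 : (2 : ℝ) ^ (17 / 100 * (n : ℝ) + √(n : ℝ) * Real.logb 2 n) ≤
      (2 : ℝ) ^ (17 / 100 * (n : ℝ) + √(n : ℝ) + √(n : ℝ) * Real.logb 2 n) :=
    Real.rpow_le_rpow_of_exponent_le (by norm_num) (by linarith)
  have hpos : (0 : ℝ) < (2 : ℝ) ^ (17 / 100 * (n : ℝ) + √(n : ℝ) + √(n : ℝ) * Real.logb 2 n) := by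
    positivity
  have h4 : ((n : ℝ) + 1) ^ 2 * (2 : ℝ) ^ (17 / 100 * (n : ℝ) + √(n : ℝ) * Real.logb 2 n) ≤
      ((n : ℝ) + 1) ^ 2 *
        (2 : ℝ) ^ (17 / 100 * (n : ℝ) + √(n : ℝ) + √(n : ℝ) * Real.logb 2 n) :=
    mul_le_mul_of_nonneg_left h3 (by positivity)
  have h5 : ((n : ℝ) + 1) *
      (2 : ℝ) ^ (17 / 100 * (n : ℝ) + √(n : ℝ) + √(n : ℝ) * Real.logb 2 n) ≤
      ((n : ℝ) + 1) ^ 2 *
        (2 : ℝ) ^ (17 / 100 * (n : ℝ) + √(n : ℝ) + √(n : ℝ) * Real.logb 2 n) := by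
    refine mul_le_mul_of_nonneg_right ?_ hpos.le
    nlinarith
  calc (((FA n).card : ℝ) + (FB n).card)
      ≤ 2 * ((n : ℝ) + 1) ^ 2 *
        (2 : ℝ) ^ (17 / 100 * (n : ℝ) + √(n : ℝ) + √(n : ℝ) * Real.logb 2 n) := by linarith
    _ = (2 * ((n : ℝ) + 1) ^ 2 * (2 : ℝ) ^ (√(n : ℝ) + √(n : ℝ) * Real.logb 2 n)) *
        (2 : ℝ) ^ (17 / 100 * (n : ℝ)) := by
        rw [mul_assoc (2 * ((n : ℝ) + 1) ^ 2), ← Real.rpow_add (by norm_num)]
        congr 2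
        ring
    _ ≤ (2 : ℝ) ^ (2 / 100 * (n : ℝ)) * (2 : ℝ) ^ (17 / 100 * (n : ℝ)) :=
        mul_le_mul_of_nonneg_right hn (by positivity)
    _ = _ := by
        rw [← Real.rpow_add (by norm_num)]
        congr 1
        ring

open scoped Classical in
/-- The difference graphs considered. -/
noncomputable def FF (n : ℕ) : Finset (SimpleGraph (Fin n)) := FA n ∪ FB n

theorem mem_FF {n : ℕ} (D : SimpleGraph (Fin n)) : D ∈ FF n ↔ D ∈ FA n ∨ D ∈ FB n := by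
  classical
  rw [FF, mem_union]

theorem card_FF {n : ℕ} : (FF n).card ≤ (FA n).card + (FB n).card := by
  classical
  exact Finset.card_union_le _ _

/-- The graphs with a cospectral graph nearby. -/
def Near (n : ℕ) (G : SimpleGraph (Fin n)) : Prop :=
  ∃ D ∈ FF n, Cosp G (symmDiff G D)

theorem near_small : Tendsto (fun n : ℕ =>
    (Nat.card {G : SimpleGraph (Fin n) // Near n G} : ℝ) / Nat.card (SimpleGraph (Fin n)))
    atTop (𝓝 0) := by
  have hlim : Tendsto (fun n : ℕ => 6 * ((2 : ℝ) ^ (-(1 / 100) : ℝ)) ^ n) atTop (𝓝 0) := by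
    have := (tendsto_pow_atTop_nhds_zero_of_lt_one (r := (2 : ℝ) ^ (-(1 / 100) : ℝ))
      (by positivity) (Real.rpow_lt_one_of_one_lt_of_neg (by norm_num) (by norm_num))).const_mul 6
    rwa [mul_zero] at this
  refine squeeze_zero' (Eventually.of_forall fun n => by positivity) ?_ hlim
  filter_upwards [family_small, eventually_ge_atTop 1] with n hn hn1
  have hcard : (0 : ℝ) < Nat.card (SimpleGraph (Fin n)) := by
    exact_mod_cast Nat.card_pos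
  have h1 := card_Cosp_family (FF n) (fun D hD => by
    rcases (mem_FF D).1 hD with h | h
    · exact FA_not_Triv h
    · exact FB_not_Triv h) ((n - 1) / 5) (by rw [Fintype.card_fin]; omega)
  have h2 : ((FF n).card : ℝ) ≤ (2 : ℝ) ^ (19 / 100 * (n : ℝ)) := by
    refine le_trans ?_ hn
    exact_mod_cast card_FF
  have h3 : (Nat.card {G : SimpleGraph (Fin n) // Near n G} : ℝ) * (2 : ℝ) ^ ((n - 1) / 5) ≤
      3 * ((FF n).card * Nat.card (SimpleGraph (Fin n))) := by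
    exact_mod_cast h1
  have h4 : (2 : ℝ) ^ ((n : ℝ) / 5 - 1) ≤ (2 : ℝ) ^ ((n - 1) / 5) := by
    rw [← Real.rpow_natCast]
    refine Real.rpow_le_rpow_of_exponent_le (by norm_num) ?_
    have : n ≤ 5 * ((n - 1) / 5) + 5 := by omega
    have h5 : (n : ℝ) ≤ 5 * (((n - 1) / 5 : ℕ) : ℝ) + 5 := by exact_mod_cast this
    linarith
  have h5 : (Nat.card {G : SimpleGraph (Fin n) // Near n G} : ℝ) * (2 : ℝ) ^ ((n : ℝ) / 5 - 1) ≤
      3 * ((2 : ℝ) ^ (19 / 100 * (n : ℝ)) * Nat.card (SimpleGraph (Fin n))) := by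
    calc _ ≤ (Nat.card {G : SimpleGraph (Fin n) // Near n G} : ℝ) * (2 : ℝ) ^ ((n - 1) / 5) :=
          mul_le_mul_of_nonneg_left h4 (Nat.cast_nonneg _)
      _ ≤ _ := h3
      _ ≤ _ := by
          refine mul_le_mul_of_nonneg_left ?_ (by norm_num)
          exact mul_le_mul_of_nonneg_right h2 hcard.le
  have hp : (0 : ℝ) < (2 : ℝ) ^ ((n : ℝ) / 5 - 1) := by positivity
  rw [div_le_iff₀ hcard]
  refine le_of_mul_le_mul_right (h5.trans (le_of_eq ?_)) hp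
  have e1 : (2 : ℝ) ^ (19 / 100 * (n : ℝ)) =
      2 * ((2 : ℝ) ^ (-(1 / 100) : ℝ)) ^ n * (2 : ℝ) ^ ((n : ℝ) / 5 - 1) := by
    rw [← Real.rpow_natCast ((2 : ℝ) ^ (-(1 / 100) : ℝ)) n, ← Real.rpow_mul (by norm_num)]
    have : (2 : ℝ) * (2 : ℝ) ^ (-(1 / 100) * (n : ℝ)) * (2 : ℝ) ^ ((n : ℝ) / 5 - 1) =
        (2 : ℝ) ^ (1 : ℝ) * (2 : ℝ) ^ (-(1 / 100) * (n : ℝ)) * (2 : ℝ) ^ ((n : ℝ) / 5 - 1) := by
      rw [Real.rpow_one]
    rw [this, ← Real.rpow_add (by norm_num), ← Real.rpow_add (by norm_num)]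
    congr 1
    ring
  rw [e1]
  ring

end DS
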