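import Pool.Agent.helper62.DS.Alg

/-!
# The linear conditions on the neighbourhood of the exposed vertex
-/

set_option autoImplicit false
set_option linter.unusedSectionVars false

namespace DS

open Matrix Finset

variable {W : Type*} [Fintype W] [DecidableEq W]

theorem Er_const (M : Matrix W W F) : PowerSeries.constantCoeff (Er M) = 1 := by
  unfold Er
  rw [RingHom.map_det]
  have : (PowerSeries.constantCoeff (R := F)).mapMatrix
      (1 + (PowerSeries.X : PowerSeries F) • M.map PowerSeries.C) = 1 := by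
    ext i j
    rw [RingHom.mapMatrix_apply, Matrix.map_apply, Matrix.add_apply, map_add, Matrix.smul_apply,
      smul_eq_mul, map_mul]
    by_cases hij : i = j
    · subst hij
      simp
    · simp [Matrix.one_apply_ne hij]
  rw [this, det_one]

/-- The chain of the all-one vector. -/
def ff (B : Matrix W W F) (l : ℕ) : W → F := B ^ l *ᵥ 1

theorem ff_zero (B : Matrix W W F) : ff B 0 = 1 := by simp [ff]

theorem ff_succ (B : Matrix W W F) (l : ℕ) : ff B (l + 1) = B *ᵥ ff B l := by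
  rw [ff, ff, mulVec_mulVec, pow_succ']

theorem one_dot {B : Matrix W W F} (hB : Bᵀ = B) (l : ℕ) (ρ : W → F) :
    1 ⬝ᵥ (B ^ l *ᵥ ρ) = ff B l ⬝ᵥ ρ := by
  rw [symm_dot (pow_symm hB l)]
  rfl

/-- The quotient of the two reversed characteristic polynomials. -/
noncomputable def Th (B D : Matrix W W F) : PowerSeries F := Er (B + D) * (Er B)⁻¹

/-- The vectors orthogonal to all differences of solutions. -/
noncomputable def hh (B D : Matrix W W F) (l : ℕ) : W → F :=
  ff B l + ∑ j ∈ range (l + 1), PowerSeries.coeff (2 * (l - j)) (Th B D) • ff (B + D) j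

theorem hh_sub_mem (B D : Matrix W W F) (l : ℕ) :
    hh B D l - ff B l ∈ Submodule.span F (Set.range fun j : Fin (l + 1) => ff (B + D) j) := by
  rw [hh, add_sub_cancel_left]
  refine Submodule.sum_mem _ fun j hj => Submodule.smul_mem _ _ (Submodule.subset_span ?_)
  exact ⟨⟨j, mem_range.1 hj⟩, rfl⟩

theorem Gam_eq_of_eq {B D : Matrix W W F} (hB : IsAlt B) (hD : IsAlt D) {δ ρ₁ ρ₂ : W → F}
    (h₁ : Er (Ext B ρ₁) = Er (Ext (B + D) (ρ₁ + δ)))
    (h₂ : Er (Ext B ρ₂) = Er (Ext (B + D) (ρ₂ + δ))) :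
    Gam B (ρ₁ + ρ₂) = Th B D * Gam (B + D) (ρ₁ + ρ₂) := by
  rw [Er_Ext hB, Er_Ext (hB.add hD)] at h₁ h₂
  have hne : PowerSeries.constantCoeff (Er B) ≠ 0 := by
    rw [Er_const]
    exact one_ne_zero
  have hcc : ∀ y : PowerSeries F, y + y = 0 := by
    intro y
    ext k
    rw [map_add, F_add_self, map_zero]
  have hX : (PowerSeries.X : PowerSeries F) ^ 2 ≠ 0 := pow_ne_zero 2 PowerSeries.X_ne_zero
  have key : PowerSeries.X ^ 2 * (Er B * Gam B (ρ₁ + ρ₂)) =
      PowerSeries.X ^ 2 * (Er (B + D) * Gam (B + D) (ρ₁ + ρ₂)) := by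
    have h3 : Er B * (1 + PowerSeries.X ^ 2 * Gam B ρ₁) +
        Er B * (1 + PowerSeries.X ^ 2 * Gam B ρ₂) =
        Er (B + D) * (1 + PowerSeries.X ^ 2 * Gam (B + D) (ρ₁ + δ)) +
        Er (B + D) * (1 + PowerSeries.X ^ 2 * Gam (B + D) (ρ₂ + δ)) := by
      rw [h₁, h₂]
    rw [Gam_add, Gam_add] at h3
    rw [Gam_add, Gam_add]
    have e1 : Er B * (1 + PowerSeries.X ^ 2 * Gam B ρ₁) +
        Er B * (1 + PowerSeries.X ^ 2 * Gam B ρ₂) =
        (Er B + Er B) + PowerSeries.X ^ 2 * (Er B * (Gam B ρ₁ + Gam B ρ₂)) := by ring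
    have e2 : Er (B + D) * (1 + PowerSeries.X ^ 2 * (Gam (B + D) ρ₁ + Gam (B + D) δ)) +
        Er (B + D) * (1 + PowerSeries.X ^ 2 * (Gam (B + D) ρ₂ + Gam (B + D) δ)) =
        (Er (B + D) + Er (B + D)) + PowerSeries.X ^ 2 * (Er (B + D) *
          (Gam (B + D) ρ₁ + Gam (B + D) ρ₂)) + PowerSeries.X ^ 2 * (Er (B + D) *
          (Gam (B + D) δ + Gam (B + D) δ)) := by ring
    rw [e1, e2, hcc, hcc, hcc, mul_zero, mul_zero, add_zero, zero_add, zero_add] at h3
    exact h3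
  have key2 := mul_left_cancel₀ hX key
  calc Gam B (ρ₁ + ρ₂) = (Er B * (Er B)⁻¹) * Gam B (ρ₁ + ρ₂) := by
        rw [PowerSeries.mul_inv_cancel _ hne, one_mul]
    _ = (Er B)⁻¹ * (Er B * Gam B (ρ₁ + ρ₂)) := by ring
    _ = (Er B)⁻¹ * (Er (B + D) * Gam (B + D) (ρ₁ + ρ₂)) := by rw [key2]
    _ = Th B D * Gam (B + D) (ρ₁ + ρ₂) := by rw [Th]; ring

theorem hh_dot {B D : Matrix W W F} (hB : IsAlt B) (hD : IsAlt D) {δ ρ₁ ρ₂ : W → F}
    (h₁ : Er (Ext B ρ₁) = Er (Ext (B + D) (ρ₁ + δ)))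
    (h₂ : Er (Ext B ρ₂) = Er (Ext (B + D) (ρ₂ + δ))) (l : ℕ) :
    (ρ₁ + ρ₂) ⬝ᵥ hh B D l = 0 := by
  have h := congrArg (PowerSeries.coeff (2 * l)) (Gam_eq_of_eq hB hD h₁ h₂)
  rw [PowerSeries.coeff_mul, coeff_Gam, if_pos (even_two_mul l)] at h
  have e0 : 2 * l / 2 = l := by omega
  rw [e0, one_dot hB.1] at h
  have e1 : ∑ p ∈ Finset.HasAntidiagonal.antidiagonal (2 * l), PowerSeries.coeff p.1 (Th B D) *
      PowerSeries.coeff p.2 (Gam (B + D) (ρ₁ + ρ₂)) =
      ∑ j ∈ range (l + 1), PowerSeries.coeff (2 * (l - j)) (Th B D) *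
        (ff (B + D) j ⬝ᵥ (ρ₁ + ρ₂)) := by
    rw [← Finset.sum_filter_add_sum_filter_not (Finset.HasAntidiagonal.antidiagonal (2 * l)) (fun p => Even p.2)]
    rw [Finset.sum_eq_zero (s := (Finset.HasAntidiagonal.antidiagonal (2 * l)).filter fun p => ¬ Even p.2), add_zero]
    · refine Finset.sum_nbij' (fun p => p.2 / 2) (fun j => (2 * (l - j), 2 * j)) ?_ ?_ ?_ ?_ ?_
      · rintro ⟨a, b⟩ hp
        rw [mem_filter, Finset.HasAntidiagonal.mem_antidiagonal] at hp
        rw [mem_range]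
        have := hp.1
        simp only at this ⊢
        omega
      · intro j hj
        rw [mem_range] at hj
        rw [mem_filter, Finset.HasAntidiagonal.mem_antidiagonal]
        refine ⟨?_, even_two_mul j⟩
        simp only
        omega
      · rintro ⟨a, b⟩ hp
        rw [mem_filter, Finset.HasAntidiagonal.mem_antidiagonal] at hp
        obtain ⟨h1, ⟨c, h2⟩⟩ := hp
        simp only at h1 h2 ⊢
        rw [Prod.mk.injEq]
        omega
      · intro j _
        simp only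
        omega
      · rintro ⟨a, b⟩ hp
        rw [mem_filter, Finset.HasAntidiagonal.mem_antidiagonal] at hp
        obtain ⟨h1, ⟨c, h2⟩⟩ := hp
        simp only at h1 h2
        have h3 : b / 2 = c := by omega
        have h4 : a = 2 * (l - c) := by omega
        rw [coeff_Gam, if_pos ⟨c, h2⟩, h3, one_dot (hB.add hD).1, h4]
    · intro p hp
      rw [mem_filter] at hp
      rw [coeff_Gam, if_neg hp.2, mul_zero]
  rw [e1] at h
  rw [hh, dotProduct_add, dotProduct_comm, h, dotProduct_sum]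
  have e2 : ∑ j ∈ range (l + 1), (ρ₁ + ρ₂) ⬝ᵥ
      (PowerSeries.coeff (2 * (l - j)) (Th B D) • ff (B + D) j) =
      ∑ j ∈ range (l + 1), PowerSeries.coeff (2 * (l - j)) (Th B D) *
        (ff (B + D) j ⬝ᵥ (ρ₁ + ρ₂)) := by
    refine Finset.sum_congr rfl fun j _ => ?_
    rw [dotProduct_smul, smul_eq_mul, dotProduct_comm]
  rw [e2, F_add_self]

end DS
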