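import Pool.Agent.helper62.DS.Bnd

/-!
# Choice of the exposed vertex
-/

set_option autoImplicit false
set_option linter.unusedSectionVars false

namespace DS

open Matrix Finset

variable {W : Type*} [Fintype W] [DecidableEq W]

open scoped Classical in
/-- The alternating matrices which are not separated from their translate by `D`. -/
noncomputable def CS {V : Type*} [Fintype V] [DecidableEq V] (D : Matrix V V F) :
    Finset (Matrix V V F) :=
  (altSet V).filter fun A => Er A = Er (A + D)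

theorem mem_CS {V : Type*} [Fintype V] [DecidableEq V] (D A : Matrix V V F) :
    A ∈ CS D ↔ IsAlt A ∧ Er A = Er (A + D) := by
  simp [CS, mem_altSet]

theorem Ext_alt {B : Matrix W W F} (hB : IsAlt B) (ρ : W → F) : IsAlt (Ext B ρ) := by
  constructor
  · ext i j
    rcases i with i | i <;> rcases j with j | j
    · exact congrFun (congrFun hB.1 i) j
    · rfl
    · rfl
    · rfl
  · rintro (i | i)
    · exact hB.2 i
    · rfl

theorem alt_eq_Ext {A : Matrix (W ⊕ Unit) (W ⊕ Unit) F} (hA : IsAlt A) :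
    A = Ext A.toBlocks₁₁ (fun w => A (Sum.inl w) (Sum.inr ())) := by
  ext i j
  rcases i with i | i <;> rcases j with j | j
  · rfl
  · rfl
  · exact (congrFun (congrFun hA.1 (Sum.inr i)) (Sum.inl j)).symm
  · exact hA.2 (Sum.inr i)

theorem alt_toBlocks {A : Matrix (W ⊕ Unit) (W ⊕ Unit) F} (hA : IsAlt A) :
    IsAlt A.toBlocks₁₁ := by
  constructor
  · ext i j
    exact congrFun (congrFun hA.1 (Sum.inl i)) (Sum.inl j)
  · intro w
    exact hA.2 (Sum.inl w)

theorem Ext_add (B D : Matrix W W F) (ρ δ : W → F) :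
    Ext B ρ + Ext D δ = Ext (B + D) (ρ + δ) := by
  ext i j
  rcases i with i | i <;> rcases j with j | j
  · rfl
  · rfl
  · rfl
  · exact add_zero _

theorem Ext_inj {B B' : Matrix W W F} {ρ ρ' : W → F} (h : Ext B ρ = Ext B' ρ') :
    B = B' ∧ ρ = ρ' := by
  constructor
  · ext i j
    exact congrFun (congrFun h (Sum.inl i)) (Sum.inl j)
  · ext i
    exact congrFun (congrFun h (Sum.inl i)) (Sum.inr ())

theorem card_alt_ge : (altSet W).card * 2 ^ Fintype.card W ≤ (altSet (W ⊕ Unit)).card := by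
  rw [← card_fun, ← Finset.card_univ (α := W → F), ← Finset.card_product]
  refine Finset.card_le_card_of_injOn (fun x => Ext x.1 x.2) ?_ ?_
  · intro x hx
    rw [mem_coe, mem_product, mem_altSet] at hx
    rw [mem_coe, mem_altSet]
    exact Ext_alt hx.1 _
  · intro x _ x' _ he
    have := Ext_inj he
    exact Prod.ext this.1 this.2

theorem card_CS_Ext (D : Matrix W W F) (hD : IsAlt D) (ha0 : D *ᵥ 1 ≠ 0) (ha1 : D *ᵥ 1 ≠ 1)
    (δ : W → F) (J : ℕ) (hJ : 5 * J ≤ Fintype.card W) :
    (CS (Ext D δ)).card * 2 ^ J ≤ 3 * (altSet (W ⊕ Unit)).card := by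
  have h1 : (CS (Ext D δ)).card ≤ ∑ B ∈ altSet W, (NS B D δ).card := by
    rw [← Finset.card_sigma]
    refine Finset.card_le_card_of_injOn
      (fun A => ⟨A.toBlocks₁₁, fun w => A (Sum.inl w) (Sum.inr ())⟩) ?_ ?_
    · intro A hA
      rw [mem_coe, mem_CS] at hA
      rw [mem_coe, mem_sigma]
      refine ⟨(mem_altSet _).2 (alt_toBlocks hA.1), ?_⟩
      rw [mem_NS]
      simp only
      rw [← Ext_add, ← alt_eq_Ext hA.1]
      exact hA.2
    · intro A hA A' hA' he
      rw [mem_coe, mem_CS] at hA hA'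
      simp only [Sigma.mk.injEq, heq_eq_eq] at he
      rw [alt_eq_Ext hA.1, alt_eq_Ext hA'.1, he.1, he.2]
  calc (CS (Ext D δ)).card * 2 ^ J ≤ (∑ B ∈ altSet W, (NS B D δ).card) * 2 ^ J :=
        Nat.mul_le_mul_right _ h1
    _ ≤ 3 * ((altSet W).card * 2 ^ Fintype.card W) := card_pairs D hD ha0 ha1 δ J hJ
    _ ≤ _ := Nat.mul_le_mul_left _ card_alt_ge

variable {V : Type*} [Fintype V] [DecidableEq V]

theorem reindex_alt {U : Type*} [Fintype U] [DecidableEq U] (e : V ≃ U) {A : Matrix V V F}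
    (hA : IsAlt A) : IsAlt (reindex e e A) := by
  constructor
  · ext i j
    exact congrFun (congrFun hA.1 (e.symm i)) (e.symm j)
  · intro w
    exact hA.2 _

theorem Er_reindex {U : Type*} [Fintype U] [DecidableEq U] (e : V ≃ U) (A : Matrix V V F) :
    Er (reindex e e A) = Er A := by
  rw [Er, Er, ← det_reindex_self e (1 + (PowerSeries.X : PowerSeries F) • A.map PowerSeries.C)]
  congr 1
  ext i j k
  simp only [reindex_apply, Matrix.add_apply, Matrix.smul_apply, Matrix.map_apply,
    submatrix_apply]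
  congr 2
  by_cases hij : i = j
  · subst hij
    simp
  · rw [Matrix.one_apply_ne hij, Matrix.one_apply_ne]
    intro h
    exact hij (e.symm.injective h)

theorem card_CS_reindex {U : Type*} [Fintype U] [DecidableEq U] (e : V ≃ U)
    (D : Matrix V V F) : (CS D).card ≤ (CS (reindex e e D)).card := by
  refine Finset.card_le_card_of_injOn (fun A => reindex e e A) ?_ ?_
  · intro A hA
    rw [mem_coe, mem_CS] at hA
    rw [mem_coe, mem_CS]
    refine ⟨reindex_alt e hA.1, ?_⟩
    have : reindex e e A + reindex e e D = reindex e e (A + D) := rfl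
    rw [this, Er_reindex, Er_reindex]
    exact hA.2
  · intro A _ A' _ he
    exact (reindex e e).injective he

theorem card_alt_reindex {U : Type*} [Fintype U] [DecidableEq U] (e : V ≃ U) :
    (altSet U).card ≤ (altSet V).card := by
  refine Finset.card_le_card_of_injOn (fun A => reindex e.symm e.symm A) ?_ ?_
  · intro A hA
    rw [mem_coe, mem_altSet] at hA
    rw [mem_coe, mem_altSet]
    exact reindex_alt _ hA
  · intro A _ A' _ he
    exact (reindex e.symm e.symm).injective he

/-- Singling out one vertex. -/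
def eY (y : V) : V ≃ {v : V // v ≠ y} ⊕ Unit :=
  (Equiv.optionSubtypeNe y).symm.trans (Equiv.optionEquivSumPUnit _)

theorem eY_symm_inl (y : V) (w : {v : V // v ≠ y}) : (eY y).symm (Sum.inl w) = w := by
  simp [eY]

theorem eY_symm_inr (y : V) : (eY y).symm (Sum.inr ()) = y := by
  simp [eY]

/-- The bound, when the restriction of `D` to the other vertices has degree sequence different
from zero and from one modulo two. -/
theorem card_CS_of (D : Matrix V V F) (hD : IsAlt D) (y : V)
    (h0 : ∃ w, w ≠ y ∧ (D *ᵥ 1) w - D w y ≠ 0) (h1 : ∃ w, w ≠ y ∧ (D *ᵥ 1) w - D w y ≠ 1)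
    (J : ℕ) (hJ : 5 * J + 1 ≤ Fintype.card V) :
    (CS D).card * 2 ^ J ≤ 3 * (altSet V).card := by
  set D' := reindex (eY y) (eY y) D with hD'
  have hA' : IsAlt D' := reindex_alt _ hD
  have hE := alt_eq_Ext hA'
  have hmul : ∀ w : {v : V // v ≠ y}, (D'.toBlocks₁₁ *ᵥ 1) w = (D *ᵥ 1) w - D w y := by
    intro w
    rw [mulVec, mulVec, dotProduct, dotProduct]
    simp only [Pi.one_apply, mul_one]
    rw [← Finset.sum_erase_eq_sub (mem_univ y)]
    rw [Finset.sum_subtype (univ.erase y) (p := fun v => v ≠ y) (by intro x; simp)]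
    refine Finset.sum_congr rfl fun v _ => ?_
    rw [hD']
    change D ((eY y).symm (Sum.inl w)) ((eY y).symm (Sum.inl v)) = _
    rw [eY_symm_inl, eY_symm_inl]
  have hcard : Fintype.card {v : V // v ≠ y} = Fintype.card V - 1 := by
    have := Fintype.card_congr (eY y)
    rw [Fintype.card_sum, Fintype.card_unit] at this
    omega
  have key : (CS D').card * 2 ^ J ≤ 3 * (altSet ({v : V // v ≠ y} ⊕ Unit)).card := by
    rw [hE]
    refine card_CS_Ext _ (alt_toBlocks hA') ?_ ?_ _ J (by omega)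
    · obtain ⟨w, hw, h⟩ := h0
      intro h2
      have := hmul ⟨w, hw⟩
      rw [h2] at this
      exact h this.symm
    · obtain ⟨w, hw, h⟩ := h1
      intro h2
      have := hmul ⟨w, hw⟩
      rw [h2] at this
      exact h this.symm
  calc (CS D).card * 2 ^ J ≤ (CS D').card * 2 ^ J :=
        Nat.mul_le_mul_right _ (card_CS_reindex (eY y) D)
    _ ≤ 3 * (altSet ({v : V // v ≠ y} ⊕ Unit)).card := key
    _ ≤ _ := Nat.mul_le_mul_left _ (card_alt_reindex (eY y))

/-- The bound for a nonzero matrix with two zero rows. -/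
theorem card_CS (D : Matrix V V F) (hD : IsAlt D) (hne : D ≠ 0) (z₁ z₂ : V) (hz : z₁ ≠ z₂)
    (hz₁ : ∀ v, D z₁ v = 0) (hz₂ : ∀ v, D z₂ v = 0)
    (J : ℕ) (hJ : 5 * J + 1 ≤ Fintype.card V) :
    (CS D).card * 2 ^ J ≤ 3 * (altSet V).card := by
  have hsymm : ∀ u v, D u v = D v u := fun u v => congrFun (congrFun hD.1 v) u
  have hrow : ∀ z, (∀ v, D z v = 0) → (D *ᵥ 1) z = 0 := by
    intro z hz
    rw [mulVec, dotProduct]
    exact Finset.sum_eq_zero fun v _ => by rw [hz, zero_mul]
  by_cases hdeg : D *ᵥ 1 = 0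
  · have : ∃ y v, D y v ≠ 0 := by
      by_contra hcon
      push Not at hcon
      exact hne (by ext i j; exact hcon i j)
    obtain ⟨y, v, hyv⟩ := this
    refine card_CS_of D hD y ⟨v, ?_, ?_⟩ ⟨z₁, ?_, ?_⟩ J hJ
    · rintro rfl
      exact hyv (hD.2 v)
    · rw [hdeg, Pi.zero_apply, zero_sub, neg_ne_zero, hsymm]
      exact hyv
    · rintro rfl
      exact hyv (hz₁ v)
    · rw [hdeg, hz₁, Pi.zero_apply, sub_zero]
      exact zero_ne_one
  · have : ∃ w, (D *ᵥ 1) w ≠ 0 := by
      by_contra hcon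
      push Not at hcon
      exact hdeg (funext hcon)
    obtain ⟨w, hw⟩ := this
    refine card_CS_of D hD z₁ ⟨w, ?_, ?_⟩ ⟨z₂, hz.symm, ?_⟩ J hJ
    · rintro rfl
      exact hw (hrow _ hz₁)
    · rw [hsymm, hz₁, sub_zero]
      exact hw
    · rw [hrow _ hz₂, hz₂, sub_zero]
      exact zero_ne_one

end DS
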